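import Mathlib
import Pool.Agent.Helper28.NijDefs

/-!
# Admissible collections in dimension three: basic facts
-/

open MvPolynomial Matrix

namespace Pool.Agent.Helper36.Nij3

open Pool.Agent.Helper28.Nij

/-- polynomials in three variables -/
abbrev P3 : Type := MvPolynomial (Fin 3) ℝ

/-- The linear substitution attached to a matrix. -/
noncomputable def sub (A : Matrix (Fin 3) (Fin 3) ℝ) : P3 →ₐ[ℝ] P3 :=
  aeval (fun j => ∑ l, C (A j l) * X l)

theorem eval_sub (A : Matrix (Fin 3) (Fin 3) ℝ) (p : P3) (v : Fin 3 → ℝ) :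
    eval v (sub A p) = eval (A *ᵥ v) p := by
  have h : ((aeval v : P3 →ₐ[ℝ] ℝ).comp (sub A)) = (aeval (A *ᵥ v) : P3 →ₐ[ℝ] ℝ) := by
    apply algHom_ext
    intro j
    simp [sub, Matrix.mulVec, dotProduct]
  have h2 := congrArg (fun f : P3 →ₐ[ℝ] ℝ => f p) h
  simpa [aeval_eq_eval] using h2

theorem sub_sub (A B : Matrix (Fin 3) (Fin 3) ℝ) (p : P3) :
    sub A (sub B p) = sub (B * A) p := by
  apply MvPolynomial.funext
  intro v
  rw [eval_sub, eval_sub, eval_sub, Matrix.mulVec_mulVec]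

theorem sub_one (p : P3) : sub 1 p = p := by
  apply MvPolynomial.funext
  intro v
  rw [eval_sub, Matrix.one_mulVec]

theorem linEquiv_def (σ τ : Fin 3 → P3) :
    LinEquiv σ τ ↔ ∃ A : Matrix (Fin 3) (Fin 3) ℝ, IsUnit A.det ∧ ∀ i, sub A (σ i) = τ i := Iff.rfl

theorem linEquiv_of_eval {σ τ : Fin 3 → P3} (A : Matrix (Fin 3) (Fin 3) ℝ) (hA : A.det ≠ 0)
    (h : ∀ i v, eval v (τ i) = eval (A *ᵥ v) (σ i)) : LinEquiv σ τ := by
  rw [linEquiv_def]
  refine ⟨A, isUnit_iff_ne_zero.mpr hA, fun i => ?_⟩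
  apply MvPolynomial.funext
  intro v
  rw [eval_sub, h]

theorem linEquiv_refl (σ : Fin 3 → P3) : LinEquiv σ σ :=
  linEquiv_of_eval 1 (by simp) fun i v => by rw [Matrix.one_mulVec]

theorem linEquiv_symm {σ τ : Fin 3 → P3} (h : LinEquiv σ τ) : LinEquiv τ σ := by
  rw [linEquiv_def] at h ⊢
  obtain ⟨A, hA, h⟩ := h
  refine ⟨A⁻¹, ?_, fun i => ?_⟩
  · rw [Matrix.det_nonsing_inv]
    exact hA.ringInverse
  · rw [← h, sub_sub, Matrix.mul_nonsing_inv A hA, sub_one]

theorem linEquiv_trans {σ τ ρ : Fin 3 → P3} (h1 : LinEquiv σ τ) (h2 : LinEquiv τ ρ) :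
    LinEquiv σ ρ := by
  rw [linEquiv_def] at *
  obtain ⟨A, hA, h⟩ := h1
  obtain ⟨B, hB, h'⟩ := h2
  refine ⟨A * B, by rw [Matrix.det_mul]; exact hA.mul hB, fun i => ?_⟩
  rw [← h', ← h, sub_sub]

/-- A convenient reformulation of admissibility. -/
def Good (σ : Fin 3 → P3) : Prop :=
  (∀ i : Fin 3, (σ i).IsHomogeneous ((i : ℕ) + 1)) ∧ (jac σ).det ≠ 0 ∧
    ∃ L : Matrix (Fin 3) (Fin 3) P3, (∀ i j, (L i j).IsHomogeneous 1) ∧
      jac σ * L = comp σ * jac σ

theorem Good.admissible {σ : Fin 3 → P3} (h : Good σ) : Admissible σ := by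
  obtain ⟨h1, h2, L, h3, h4⟩ := h
  refine ⟨indep_of_det σ h2, h1, fun i j => ⟨L i j, ?_⟩⟩
  rw [Matrix.mul_assoc, ← h4, ← Matrix.mul_assoc, Matrix.adjugate_mul, Matrix.smul_mul,
    Matrix.one_mul, Matrix.smul_apply, smul_eq_mul]

theorem pderiv_sub (A : Matrix (Fin 3) (Fin 3) ℝ) (p : P3) (m : Fin 3) :
    pderiv m (sub A p) = ∑ k, sub A (pderiv k p) * C (A k m) := by
  unfold sub
  rw [pderiv_aeval]
  refine Finset.sum_congr rfl fun k _ => ?_
  congr 1
  rw [map_sum, Finset.sum_eq_single m]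
  · rw [pderiv_C_mul, pderiv_X_self, mul_one]
  · intro j _ hj
    rw [pderiv_C_mul, pderiv_X_of_ne hj, mul_zero]
  · simp

theorem jac_sub (A : Matrix (Fin 3) (Fin 3) ℝ) (σ : Fin 3 → P3) :
    jac (fun i => sub A (σ i)) = (sub A).toRingHom.mapMatrix (jac σ) * A.map C := by
  ext1 i j
  rw [Matrix.mul_apply]
  show pderiv j (sub A (σ i)) = _
  rw [pderiv_sub]
  rfl

theorem comp_sub (A : Matrix (Fin 3) (Fin 3) ℝ) (σ : Fin 3 → P3) :
    comp (fun i => sub A (σ i)) = (sub A).toRingHom.mapMatrix (comp σ) := by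
  ext1 i j
  show (if (j : ℕ) = 0 then -sub A (σ i) else 0) + (if (j : ℕ) = i + 1 then 1 else 0) =
    sub A ((if (j : ℕ) = 0 then -σ i else 0) + (if (j : ℕ) = i + 1 then 1 else 0))
  rw [map_add]
  congr 1
  · split_ifs
    · rw [map_neg]
    · rw [map_zero]
  · split_ifs
    · rw [map_one]
    · rw [map_zero]

theorem sub_injective {A : Matrix (Fin 3) (Fin 3) ℝ} (hA : IsUnit A.det) :
    Function.Injective (sub A) := by
  intro p q h
  have h2 := congrArg (sub A⁻¹) h
  rwa [sub_sub, sub_sub, Matrix.mul_nonsing_inv A hA, sub_one, sub_one] at h2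

theorem Good.linEquiv {σ τ : Fin 3 → P3} (h : Good σ) (hl : LinEquiv σ τ) : Good τ := by
  rw [linEquiv_def] at hl
  obtain ⟨A, hA, hτ⟩ := hl
  obtain ⟨h1, h2, L, h3, h4⟩ := h
  have hτ' : τ = fun i => sub A (σ i) := funext fun i => (hτ i).symm
  have hlin : ∀ j : Fin 3, (∑ l, C (A j l) * X l : P3).IsHomogeneous 1 := fun j =>
    IsHomogeneous.sum _ _ _ fun l _ => by
      have := (isHomogeneous_C (Fin 3) (A j l)).mul (isHomogeneous_X ℝ l)
      rwa [zero_add] at this
  have hhom : ∀ (p : P3) (k : ℕ), p.IsHomogeneous k → (sub A p).IsHomogeneous k := by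
    intro p k hp
    have := hp.aeval (fun j => ∑ l, C (A j l) * X l) hlin
    rwa [one_mul] at this
  have hinv1 : (A⁻¹).map (C : ℝ →+* P3) * A.map C = 1 := by
    have := congrArg (fun M : Matrix (Fin 3) (Fin 3) ℝ => M.map (C : ℝ →+* P3))
      (Matrix.nonsing_inv_mul A hA)
    simp only [Matrix.map_mul] at this
    rw [this]
    exact Matrix.map_one _ (map_zero _) (map_one _)
  have hinv2 : A.map (C : ℝ →+* P3) * (A⁻¹).map C = 1 := by
    have := congrArg (fun M : Matrix (Fin 3) (Fin 3) ℝ => M.map (C : ℝ →+* P3))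
      (Matrix.mul_nonsing_inv A hA)
    simp only [Matrix.map_mul] at this
    rw [this]
    exact Matrix.map_one _ (map_zero _) (map_one _)
  subst hτ'
  refine ⟨fun i => hhom _ _ (h1 i), ?_, (A⁻¹).map C * (sub A).toRingHom.mapMatrix L * A.map C,
    fun i j => ?_, ?_⟩
  · rw [jac_sub, Matrix.det_mul]
    refine mul_ne_zero ?_ ?_
    · rw [← RingHom.map_det]
      intro h0
      apply h2
      apply sub_injective hA
      rw [map_zero]
      exact h0
    · intro h0
      have h5 := congrArg Matrix.det hinv1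
      rw [Matrix.det_mul, h0, mul_zero, Matrix.det_one] at h5
      exact zero_ne_one h5
  · rw [Matrix.mul_apply]
    refine IsHomogeneous.sum _ _ _ fun k _ => ?_
    rw [Matrix.mul_apply, Finset.sum_mul]
    refine IsHomogeneous.sum _ _ _ fun l _ => ?_
    have h5 := ((isHomogeneous_C (Fin 3) (A⁻¹ i l)).mul (hhom _ _ (h3 l k))).mul
      (isHomogeneous_C (Fin 3) (A k j))
    rw [zero_add, add_zero] at h5
    exact h5
  · rw [jac_sub, comp_sub]
    calc (sub A).toRingHom.mapMatrix (jac σ) * A.map C *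
        ((A⁻¹).map C * (sub A).toRingHom.mapMatrix L * A.map C)
        = (sub A).toRingHom.mapMatrix (jac σ) * (A.map C * (A⁻¹).map C) *
          (sub A).toRingHom.mapMatrix L * A.map C := by
          simp only [Matrix.mul_assoc]
      _ = (sub A).toRingHom.mapMatrix (jac σ * L) * A.map C := by
          rw [hinv2, Matrix.mul_one, map_mul]
      _ = (sub A).toRingHom.mapMatrix (comp σ) *
          ((sub A).toRingHom.mapMatrix (jac σ) * A.map C) := by
          rw [h4, map_mul, Matrix.mul_assoc]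

/-- change of coordinates -/
theorem Good.chg {σ : Fin 3 → P3} (h : Good σ) (A : Matrix (Fin 3) (Fin 3) ℝ) (hA : A.det ≠ 0) :
    ∃ τ : Fin 3 → P3, LinEquiv σ τ ∧ Good τ ∧ ∀ i v, eval v (τ i) = eval (A *ᵥ v) (σ i) := by
  have h1 : LinEquiv σ (fun i => sub A (σ i)) :=
    linEquiv_of_eval A hA fun i v => eval_sub A (σ i) v
  exact ⟨_, h1, h.linEquiv h1, fun i v => eval_sub A (σ i) v⟩

end Pool.Agent.Helper36.Nij3
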