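import Mathlib
import Pool.Agent.Helper36.Nij3.Basic

/-!
# Admissible collections are good
-/

open MvPolynomial Matrix
open scoped TensorProduct

namespace Pool.Agent.Helper36.Nij3

open Pool.Agent.Helper28.Nij

noncomputable section

section kaehler

variable {K : Type} [Field K] [Algebra ℝ K]

open scoped IntermediateField.algebraAdjoinAdjoin in
/-- The differentials of the elements of a transcendence basis are a basis of `Ω[K⁄ℝ]`. -/
theorem diffInd_basis {ι : Type} (v : ι → K) (hv : IsTranscendenceBasis ℝ v) :
    ∃ b : Module.Basis ι K (Ω[K⁄ℝ]), ∀ i, b i = KaehlerDifferential.D ℝ K (v i) := by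
  classical
  have hind := hv.1
  have halg0 : Algebra.IsAlgebraic (Algebra.adjoin ℝ (Set.range v)) K := hv.isAlgebraic
  have halg : Algebra.IsAlgebraic (IntermediateField.adjoin ℝ (Set.range v)) K :=
    hv.isAlgebraic_field
  have h1 : Algebra.FormallyEtale (IntermediateField.adjoin ℝ (Set.range v)) K :=
    Algebra.FormallyEtale.of_isSeparable _ K
  have h2 : Algebra.FormallyEtale (Algebra.adjoin ℝ (Set.range v))
      (IntermediateField.adjoin ℝ (Set.range v)) :=
    .of_isLocalization (nonZeroDivisors _)
  have h3 : Algebra.FormallyEtale (Algebra.adjoin ℝ (Set.range v)) K :=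
    .comp _ (IntermediateField.adjoin ℝ (Set.range v)) _
  let i1 : Algebra (MvPolynomial ι ℝ) (Algebra.adjoin ℝ (Set.range v)) :=
    (hind.aevalEquiv : MvPolynomial ι ℝ →+* Algebra.adjoin ℝ (Set.range v)).toAlgebra
  let i2 : Algebra (MvPolynomial ι ℝ) K := (MvPolynomial.aeval v : _ →ₐ[ℝ] K).toRingHom.toAlgebra
  have : IsScalarTower ℝ (MvPolynomial ι ℝ) K :=
    IsScalarTower.of_algebraMap_eq fun c => ((MvPolynomial.aeval v).commutes c).symm
  have : IsScalarTower (MvPolynomial ι ℝ) (Algebra.adjoin ℝ (Set.range v)) K :=
    IsScalarTower.of_algebraMap_eq fun p => by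
      change MvPolynomial.aeval v p = ((hind.aevalEquiv p : Algebra.adjoin ℝ (Set.range v)) : K)
      simp
  have h4 : Algebra.FormallyEtale (MvPolynomial ι ℝ) (Algebra.adjoin ℝ (Set.range v)) := by
    let e : MvPolynomial ι ℝ ≃ₐ[MvPolynomial ι ℝ] Algebra.adjoin ℝ (Set.range v) :=
      { (hind.aevalEquiv : MvPolynomial ι ℝ ≃+* Algebra.adjoin ℝ (Set.range v)) with
        commutes' := fun _ => rfl }
    exact Algebra.FormallyEtale.of_equiv e
  have h5 : Algebra.FormallyEtale (MvPolynomial ι ℝ) K :=
    .comp _ (Algebra.adjoin ℝ (Set.range v)) _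
  let E := KaehlerDifferential.tensorKaehlerEquivOfFormallyEtale ℝ (MvPolynomial ι ℝ) K
  let b0 := (KaehlerDifferential.mvPolynomialBasis ℝ ι).baseChange K
  refine ⟨b0.map E, fun i => ?_⟩
  rw [Module.Basis.map_apply, Module.Basis.baseChange_apply,
    KaehlerDifferential.mvPolynomialBasis_apply]
  change KaehlerDifferential.tensorKaehlerEquivOfFormallyEtale ℝ (MvPolynomial ι ℝ) K _ = _
  rw [KaehlerDifferential.tensorKaehlerEquivOfFormallyEtale_apply,
    KaehlerDifferential.mapBaseChange_tmul, one_smul, KaehlerDifferential.map_D]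
  congr 1
  change MvPolynomial.aeval v (MvPolynomial.X i) = v i
  rw [MvPolynomial.aeval_X]

/-- The differentials of algebraically independent elements are linearly independent. -/
theorem diffInd_linearIndependent {ι : Type} (v : ι → K) (hv : AlgebraicIndependent ℝ v) :
    LinearIndependent K (fun i => KaehlerDifferential.D ℝ K (v i)) := by
  obtain ⟨t, hst, ht⟩ := exists_isTranscendenceBasis_superset (R := ℝ) (s := Set.range v)
    hv.to_subtype_range
  obtain ⟨b, hb⟩ := diffInd_basis (fun x : t => (x : K)) ht
  have h := b.linearIndependent.comp (fun i : ι => (⟨v i, hst ⟨i, rfl⟩⟩ : t)) (by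
    intro i j hij
    exact hv.injective (congrArg Subtype.val hij))
  convert h using 1
  funext i
  exact (hb ⟨v i, hst ⟨i, rfl⟩⟩).symm

end kaehler

/-- the field of rational functions -/
abbrev RF : Type := FractionRing P3

theorem D_eq (p : P3) : KaehlerDifferential.D ℝ RF (algebraMap P3 RF p) =
    ∑ j, algebraMap P3 RF (pderiv j p) • KaehlerDifferential.D ℝ RF (algebraMap P3 RF (X j)) := by
  induction p using MvPolynomial.induction_on with
  | C a =>
    have h1 : algebraMap P3 RF (C a) = algebraMap ℝ RF a := by
      rw [IsScalarTower.algebraMap_apply ℝ P3 RF]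
      rfl
    rw [h1, Derivation.map_algebraMap]
    symm
    refine Finset.sum_eq_zero fun j _ => ?_
    rw [pderiv_C, map_zero, zero_smul]
  | add p q hp hq =>
    rw [map_add, map_add, hp, hq, ← Finset.sum_add_distrib]
    refine Finset.sum_congr rfl fun j _ => ?_
    rw [map_add, map_add, add_smul]
  | mul_X p i h =>
    rw [map_mul, Derivation.leibniz, h]
    have h2 : ∀ j, algebraMap P3 RF (pderiv j (p * X i)) =
        algebraMap P3 RF (X i) * algebraMap P3 RF (pderiv j p) +
          (if j = i then algebraMap P3 RF p else 0) := by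
      intro j
      rw [pderiv_mul, pderiv_X, Pi.single_apply, map_add, map_mul, map_mul]
      by_cases hj : j = i
      · subst hj
        simp
        ring
      · rw [if_neg hj, if_neg (fun h => hj h.symm)]
        simp
        ring
    simp only [h2, add_smul, Finset.sum_add_distrib, ite_smul, zero_smul, Finset.sum_ite_eq',
      Finset.mem_univ, if_true]
    rw [Finset.smul_sum, add_comm]
    congr 1
    refine Finset.sum_congr rfl fun j _ => ?_
    rw [smul_smul]

theorem det_ne_zero_of_indep {σ : Fin 3 → P3} (h : AlgebraicIndependent ℝ σ) :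
    (jac σ).det ≠ 0 := by
  intro hdet
  obtain ⟨v, hv0, hv⟩ := Matrix.exists_vecMul_eq_zero_iff.mpr hdet
  have hinj : Function.Injective (algebraMap P3 RF) := IsFractionRing.injective P3 RF
  have h1 : AlgebraicIndependent ℝ (fun i => algebraMap P3 RF (σ i)) := by
    have := h.map' (f := IsScalarTower.toAlgHom ℝ P3 RF) hinj
    exact this
  have h2 := diffInd_linearIndependent _ h1
  rw [Fintype.linearIndependent_iff] at h2
  have h3 := h2 (fun i => algebraMap P3 RF (v i)) (by
    have hD : ∀ i, KaehlerDifferential.D ℝ RF (algebraMap P3 RF (σ i)) =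
        ∑ j, algebraMap P3 RF (pderiv j (σ i)) •
          KaehlerDifferential.D ℝ RF (algebraMap P3 RF (X j)) := fun i => D_eq (σ i)
    rw [Finset.sum_congr rfl fun i _ => by rw [hD i, Finset.smul_sum]]
    rw [Finset.sum_comm]
    refine Finset.sum_eq_zero fun j _ => ?_
    simp only [smul_smul]
    rw [← Finset.sum_smul]
    have h4 := congrFun hv j
    have h5 : ∑ i, algebraMap P3 RF (v i) * algebraMap P3 RF (pderiv j (σ i)) =
        algebraMap P3 RF ((v ᵥ* jac σ) j) := by
      rw [Matrix.vecMul, dotProduct, map_sum]
      refine Finset.sum_congr rfl fun i _ => ?_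
      rw [map_mul]
      rfl
    rw [h5, h4, Pi.zero_apply, map_zero, zero_smul])
  apply hv0
  funext i
  exact hinj (by rw [h3 i, Pi.zero_apply, map_zero])

theorem hc_mul {p : P3} {i : ℕ} (hp : p.IsHomogeneous i) (j : ℕ) (q : P3) :
    homogeneousComponent (i + j) (p * q) = p * homogeneousComponent j q := by
  conv_lhs => rw [← sum_homogeneousComponent q, Finset.mul_sum, map_sum]
  have h1 : ∀ m, homogeneousComponent (i + j) (p * homogeneousComponent m q) =
      if j = m then p * homogeneousComponent j q else 0 := by
    intro m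
    rw [homogeneousComponent_of_mem (n := i + m)
      (show p * homogeneousComponent m q ∈ homogeneousSubmodule (Fin 3) ℝ (i + m) from
        hp.mul (homogeneousComponent_isHomogeneous m q))]
    by_cases hjm : j = m
    · subst hjm
      simp
    · rw [if_neg hjm, if_neg (fun h => hjm (by omega))]
  simp only [h1]
  rw [Finset.sum_ite_eq]
  split_ifs with h2
  · rfl
  · rw [homogeneousComponent_eq_zero, mul_zero]
    rw [Finset.mem_range] at h2
    omega

theorem admissible_good {σ : Fin 3 → P3} (h : Admissible σ) : Good σ := by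
  have hdet := det_ne_zero_of_indep h.indep
  choose M hM using h.dvd
  have e1 : (jac σ).adjugate * comp σ * jac σ = (jac σ).det • (Matrix.of M) := by
    ext1 i j
    rw [hM, Matrix.smul_apply, smul_eq_mul, Matrix.of_apply]
  have e2 : jac σ * Matrix.of M = comp σ * jac σ := by
    have h1 : (jac σ).det • (jac σ * Matrix.of M) = (jac σ).det • (comp σ * jac σ) := by
      rw [← Matrix.mul_smul, ← e1, ← Matrix.mul_assoc, ← Matrix.mul_assoc, Matrix.mul_adjugate,
        Matrix.smul_mul, Matrix.one_mul, Matrix.smul_mul]
    ext1 i j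
    have h2 := congrFun (congrFun h1 i) j
    rw [Matrix.smul_apply, Matrix.smul_apply, smul_eq_mul, smul_eq_mul] at h2
    exact mul_left_cancel₀ hdet h2
  refine ⟨h.homog, hdet, Matrix.of fun i j => homogeneousComponent 1 (M i j), fun i j => ?_, ?_⟩
  · exact homogeneousComponent_isHomogeneous 1 _
  · have hJ : ∀ i j, (jac σ i j).IsHomogeneous (i : ℕ) := fun i j => (h.homog i).pderiv
    ext1 i j
    have h3 := congrFun (congrFun e2 i) j
    have h4 : ((comp σ * jac σ) i j).IsHomogeneous ((i : ℕ) + 1) := by
      rw [Matrix.mul_apply]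
      refine IsHomogeneous.sum _ _ _ fun k _ => ?_
      show (((if (k : ℕ) = 0 then -σ i else 0) + (if (k : ℕ) = i + 1 then 1 else 0)) *
        jac σ k j).IsHomogeneous _
      rw [add_mul]
      refine IsHomogeneous.add ?_ ?_
      · split_ifs with hk
        · have := (h.homog i).neg.mul (hJ k j)
          rw [hk, add_zero] at this
          exact this
        · rw [zero_mul]
          exact isHomogeneous_zero _ _ _
      · split_ifs with hk
        · rw [one_mul, ← hk]
          exact hJ k j
        · rw [zero_mul]
          exact isHomogeneous_zero _ _ _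
    rw [← homogeneousComponent_eq_self h4, ← h3, Matrix.mul_apply, Matrix.mul_apply, map_sum]
    refine Finset.sum_congr rfl fun k _ => ?_
    rw [Matrix.of_apply, Matrix.of_apply, hc_mul (hJ i k)]

end

end Pool.Agent.Helper36.Nij3
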