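import Mathlib
import Pool.Agent.Helper36.Nij3.Basic

/-!
# General quadratic and cubic forms, and the coefficient equations
-/

open MvPolynomial Matrix

set_option linter.unusedSimpArgs false

namespace Pool.Agent.Helper36.Nij3

open Pool.Agent.Helper28.Nij

/-- general linear form -/
noncomputable def ln (a b c : ℝ) : P3 := C a * X 0 + C b * X 1 + C c * X 2

/-- general quadratic form: coefficients of `x², y², z², xy, xz, yz` -/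
noncomputable def qd (a b c d e f : ℝ) : P3 :=
  C a * X 0 ^ 2 + C b * X 1 ^ 2 + C c * X 2 ^ 2 + C d * (X 0 * X 1) + C e * (X 0 * X 2)
    + C f * (X 1 * X 2)

/-- general cubic form: coefficients of
`x³, x²y, x²z, xy², xz², xyz, y³, y²z, yz², z³` -/
noncomputable def cb (k0 ky kz g1 g3 g2 t0 t1 t2 t3 : ℝ) : P3 :=
  C k0 * X 0 ^ 3 + C ky * (X 0 ^ 2 * X 1) + C kz * (X 0 ^ 2 * X 2) + C g1 * (X 0 * X 1 ^ 2)
    + C g3 * (X 0 * X 2 ^ 2) + C g2 * (X 0 * X 1 * X 2) + C t0 * X 1 ^ 3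
    + C t1 * (X 1 ^ 2 * X 2) + C t2 * (X 1 * X 2 ^ 2) + C t3 * X 2 ^ 3

theorem hom0 {p : P3} (h : p.IsHomogeneous 0) : ∃ a : ℝ, p = C a := by
  rw [← totalDegree_zero_iff_isHomogeneous, totalDegree_eq_zero_iff_eq_C] at h
  exact ⟨_, h⟩

theorem hom1 {p : P3} (h : p.IsHomogeneous 1) : ∃ a b c : ℝ, p = ln a b c := by
  have h1 := h.sum_X_mul_pderiv
  obtain ⟨a, ha⟩ := hom0 (h.pderiv (i := 0))
  obtain ⟨b, hb⟩ := hom0 (h.pderiv (i := 1))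
  obtain ⟨c, hc⟩ := hom0 (h.pderiv (i := 2))
  refine ⟨a, b, c, ?_⟩
  rw [Fin.sum_univ_three, ha, hb, hc, one_smul] at h1
  rw [← h1, ln]
  ring

theorem hom2 {p : P3} (h : p.IsHomogeneous 2) : ∃ a b c d e f : ℝ, p = qd a b c d e f := by
  have h1 := h.sum_X_mul_pderiv
  obtain ⟨a0, a1, a2, ha⟩ := hom1 (h.pderiv (i := 0))
  obtain ⟨b0, b1, b2, hb⟩ := hom1 (h.pderiv (i := 1))
  obtain ⟨c0, c1, c2, hc⟩ := hom1 (h.pderiv (i := 2))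
  refine ⟨a0 / 2, b1 / 2, c2 / 2, (a1 + b0) / 2, (a2 + c0) / 2, (b2 + c1) / 2, ?_⟩
  rw [Fin.sum_univ_three, ha, hb, hc, ln, ln, ln] at h1
  have h2 : p = C (1 / 2) * (2 • p) := by
    rw [two_nsmul, ← two_mul, ← mul_assoc, show (2 : P3) = C 2 from rfl, ← C_mul]
    norm_num
  rw [h2, ← h1, qd]
  apply MvPolynomial.funext
  intro v
  simp only [map_add, map_mul, eval_C, eval_X, map_pow]
  ring

theorem hom3 {p : P3} (h : p.IsHomogeneous 3) :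
    ∃ k0 ky kz g1 g3 g2 t0 t1 t2 t3 : ℝ, p = cb k0 ky kz g1 g3 g2 t0 t1 t2 t3 := by
  have h1 := h.sum_X_mul_pderiv
  obtain ⟨a1, a2, a3, a4, a5, a6, ha⟩ := hom2 (h.pderiv (i := 0))
  obtain ⟨b1, b2, b3, b4, b5, b6, hb⟩ := hom2 (h.pderiv (i := 1))
  obtain ⟨c1, c2, c3, c4, c5, c6, hc⟩ := hom2 (h.pderiv (i := 2))
  refine ⟨a1 / 3, (a4 + b1) / 3, (a5 + c1) / 3, (a2 + b4) / 3, (a3 + c5) / 3,
    (a6 + b5 + c4) / 3, b2 / 3, (b6 + c2) / 3, (b3 + c6) / 3, c3 / 3, ?_⟩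
  rw [Fin.sum_univ_three, ha, hb, hc, qd, qd, qd] at h1
  have h2 : p = C (1 / 3) * (3 • p) := by
    rw [nsmul_eq_mul, ← mul_assoc, show ((3 : ℕ) : P3) = C 3 from rfl, ← C_mul]
    norm_num
  rw [h2, ← h1, cb]
  apply MvPolynomial.funext
  intro v
  simp only [map_add, map_mul, eval_C, eval_X, map_pow]
  ring

theorem quad_zero {a b c d e f : ℝ}
    (h : ∀ x y z : ℝ, a * x ^ 2 + b * y ^ 2 + c * z ^ 2 + d * (x * y) + e * (x * z)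
      + f * (y * z) = 0) : a = 0 ∧ b = 0 ∧ c = 0 ∧ d = 0 ∧ e = 0 ∧ f = 0 := by
  have h1 := h 1 0 0
  have h2 := h 0 1 0
  have h3 := h 0 0 1
  have h4 := h 1 1 0
  have h5 := h 1 0 1
  have h6 := h 0 1 1
  norm_num at h1 h2 h3
  refine ⟨h1, h2, h3, ?_, ?_, ?_⟩ <;> linarith

theorem cub_zero {k0 ky kz g1 g3 g2 t0 t1 t2 t3 : ℝ}
    (h : ∀ x y z : ℝ, k0 * x ^ 3 + ky * (x ^ 2 * y) + kz * (x ^ 2 * z) + g1 * (x * y ^ 2)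
      + g3 * (x * z ^ 2) + g2 * (x * y * z) + t0 * y ^ 3 + t1 * (y ^ 2 * z) + t2 * (y * z ^ 2)
      + t3 * z ^ 3 = 0) :
    k0 = 0 ∧ ky = 0 ∧ kz = 0 ∧ g1 = 0 ∧ g3 = 0 ∧ g2 = 0 ∧ t0 = 0 ∧ t1 = 0 ∧ t2 = 0 ∧ t3 = 0 := by
  have h1 := h 1 0 0
  have h2 := h 0 1 0
  have h3 := h 0 0 1
  have h4 := h 1 1 0
  have h5 := h 1 0 1
  have h6 := h 0 1 1
  have h7 := h 1 (-1) 0
  have h8 := h 1 0 (-1)
  have h9 := h 0 1 (-1)
  have h10 := h 1 1 1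
  norm_num at h1 h2 h3
  refine ⟨h1, ?_, ?_, ?_, ?_, ?_, h2, ?_, ?_, h3⟩ <;> linarith

/-- the coefficient equations -/
structure CE (a b c d e f k0 ky kz g1 g3 g2 t0 t1 t2 t3 : ℝ)
    (p0 p1 p2 q0 q1 q2 r0 r1 r2 p3 p4 p5 q3 q4 q5 r3 r4 r5 : ℝ) : Prop where
  u0_xx : -a + 4 * a ^ 2 - 3 * k0 + d * p0 + e * p3 = 0
  u0_yy : b + d ^ 2 - g1 + 2 * b * p1 + f * p4 = 0
  u0_zz : c + e ^ 2 - g3 + 2 * c * p5 + f * p2 = 0
  u0_xy : -2 * ky + 4 * a * d + 2 * b * p0 + d * p1 + e * p4 + f * p3 = 0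
  u0_xz : -2 * kz + 4 * a * e + 2 * c * p3 + d * p2 + e * p5 + f * p0 = 0
  u0_yz : f - g2 + 2 * b * p2 + 2 * c * p4 + 2 * d * e + f * p1 + f * p5 = 0
  w0_xxx : -2 * k0 + 6 * a * k0 + ky * p0 + kz * p3 = 0
  w0_xxy : -ky + 4 * a * ky + 3 * d * k0 + 2 * g1 * p0 + g2 * p3 + ky * p1 + kz * p4 = 0
  w0_xxz : -kz + 4 * a * kz + 3 * e * k0 + g2 * p0 + 2 * g3 * p3 + ky * p2 + kz * p5 = 0
  w0_xyy : 2 * a * g1 + 2 * d * ky + 2 * g1 * p1 + g2 * p4 + 3 * p0 * t0 + p3 * t1 = 0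
  w0_xzz : 2 * a * g3 + 2 * e * kz + g2 * p2 + 2 * g3 * p5 + p0 * t2 + 3 * p3 * t3 = 0
  w0_xyz : 2 * a * g2 + 2 * d * kz + 2 * e * ky + 2 * g1 * p2 + g2 * p1 + g2 * p5 + 2 * g3 * p4 + 2 * p0 * t1 + 2 * p3 * t2 = 0
  w0_yyy : t0 + d * g1 + 3 * p1 * t0 + p4 * t1 = 0
  w0_yyz : t1 + d * g2 + e * g1 + 2 * p1 * t1 + 3 * p2 * t0 + 2 * p4 * t2 + p5 * t1 = 0
  w0_yzz : t2 + d * g3 + e * g2 + p1 * t2 + 2 * p2 * t1 + 3 * p4 * t3 + 2 * p5 * t2 = 0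
  w0_zzz : t3 + e * g3 + p2 * t2 + 3 * p5 * t3 = 0
  u1_xx : -ky + 2 * a * d + d * q0 + e * q3 = 0
  u1_yy : -3 * t0 + 2 * b * d + 2 * b * q1 + f * q4 = 0
  u1_zz : -t2 + 2 * c * q5 + e * f + f * q2 = 0
  u1_xy : d ^ 2 - 2 * g1 + 4 * a * b + 2 * b * q0 + d * q1 + e * q4 + f * q3 = 0
  u1_xz : -g2 + 2 * a * f + 2 * c * q3 + d * e + d * q2 + e * q5 + f * q0 = 0
  u1_yz : -2 * t1 + 2 * b * e + 2 * b * q2 + 2 * c * q4 + d * f + f * q1 + f * q5 = 0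
  w1_xxx : 3 * d * k0 + ky * q0 + kz * q3 = 0
  w1_xxy : 6 * b * k0 + 2 * d * ky + 2 * g1 * q0 + g2 * q3 + ky * q1 + kz * q4 = 0
  w1_xxz : 2 * d * kz + 3 * f * k0 + g2 * q0 + 2 * g3 * q3 + ky * q2 + kz * q5 = 0
  w1_xyy : 4 * b * ky + d * g1 + 2 * g1 * q1 + g2 * q4 + 3 * q0 * t0 + q3 * t1 = 0
  w1_xzz : d * g3 + 2 * f * kz + g2 * q2 + 2 * g3 * q5 + q0 * t2 + 3 * q3 * t3 = 0
  w1_xyz : 4 * b * kz + d * g2 + 2 * f * ky + 2 * g1 * q2 + g2 * q1 + g2 * q5 + 2 * g3 * q4 + 2 * q0 * t1 + 2 * q3 * t2 = 0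
  w1_yyy : 2 * b * g1 + 3 * q1 * t0 + q4 * t1 = 0
  w1_yyz : 2 * b * g2 + f * g1 + 2 * q1 * t1 + 3 * q2 * t0 + 2 * q4 * t2 + q5 * t1 = 0
  w1_yzz : 2 * b * g3 + f * g2 + q1 * t2 + 2 * q2 * t1 + 3 * q4 * t3 + 2 * q5 * t2 = 0
  w1_zzz : f * g3 + q2 * t2 + 3 * q5 * t3 = 0
  u2_xx : -kz + 2 * a * e + d * r0 + e * r3 = 0
  u2_yy : -t1 + 2 * b * r1 + d * f + f * r4 = 0
  u2_zz : -3 * t3 + 2 * c * e + 2 * c * r5 + f * r2 = 0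
  u2_xy : -g2 + 2 * a * f + 2 * b * r0 + d * e + d * r1 + e * r4 + f * r3 = 0
  u2_xz : e ^ 2 - 2 * g3 + 4 * a * c + 2 * c * r3 + d * r2 + e * r5 + f * r0 = 0
  u2_yz : -2 * t2 + 2 * b * r2 + 2 * c * d + 2 * c * r4 + e * f + f * r1 + f * r5 = 0
  w2_xxx : 3 * e * k0 + ky * r0 + kz * r3 = 0
  w2_xxy : 2 * e * ky + 3 * f * k0 + 2 * g1 * r0 + g2 * r3 + ky * r1 + kz * r4 = 0
  w2_xxz : 6 * c * k0 + 2 * e * kz + g2 * r0 + 2 * g3 * r3 + ky * r2 + kz * r5 = 0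
  w2_xyy : e * g1 + 2 * f * ky + 2 * g1 * r1 + g2 * r4 + 3 * r0 * t0 + r3 * t1 = 0
  w2_xzz : 4 * c * kz + e * g3 + g2 * r2 + 2 * g3 * r5 + r0 * t2 + 3 * r3 * t3 = 0
  w2_xyz : 4 * c * ky + e * g2 + 2 * f * kz + 2 * g1 * r2 + g2 * r1 + g2 * r5 + 2 * g3 * r4 + 2 * r0 * t1 + 2 * r3 * t2 = 0
  w2_yyy : f * g1 + 3 * r1 * t0 + r4 * t1 = 0
  w2_yyz : 2 * c * g1 + f * g2 + 2 * r1 * t1 + 3 * r2 * t0 + 2 * r4 * t2 + r5 * t1 = 0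
  w2_yzz : 2 * c * g2 + f * g3 + r1 * t2 + 2 * r2 * t1 + 3 * r4 * t3 + 2 * r5 * t2 = 0
  w2_zzz : 2 * c * g3 + r2 * t2 + 3 * r5 * t3 = 0

/-- the equations at the level of functions -/
structure FE (a b c d e f k0 ky kz g1 g3 g2 t0 t1 t2 t3 : ℝ)
    (p0 p1 p2 q0 q1 q2 r0 r1 r2 p3 p4 p5 q3 q4 q5 r3 r4 r5 : ℝ) : Prop where
  u0 : ∀ x y z : ℝ, (2 * a * x + d * y + e * z) * (-x + (2 * a * x + d * y + e * z))
      + (2 * b * y + d * x + f * z) * (p0 * x + p1 * y + p2 * z)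
      + (2 * c * z + e * x + f * y) * (p3 * x + p4 * y + p5 * z)
      = -(a * x ^ 2 + b * y ^ 2 + c * z ^ 2 + d * (x * y) + e * (x * z) + f * (y * z)) + (3 * k0 * x ^ 2 + 2 * ky * (x * y) + 2 * kz * (x * z) + g1 * y ^ 2 + g3 * z ^ 2 + g2 * (y * z))
  w0 : ∀ x y z : ℝ, (3 * k0 * x ^ 2 + 2 * ky * (x * y) + 2 * kz * (x * z) + g1 * y ^ 2 + g3 * z ^ 2 + g2 * (y * z)) * (-x + (2 * a * x + d * y + e * z))
      + (ky * x ^ 2 + 2 * g1 * (x * y) + g2 * (x * z) + 3 * t0 * y ^ 2 + 2 * t1 * (y * z) + t2 * z ^ 2) * (p0 * x + p1 * y + p2 * z)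
      + (kz * x ^ 2 + 2 * g3 * (x * z) + g2 * (x * y) + t1 * y ^ 2 + 2 * t2 * (y * z) + 3 * t3 * z ^ 2) * (p3 * x + p4 * y + p5 * z)
      = -(k0 * x ^ 3 + ky * (x ^ 2 * y) + kz * (x ^ 2 * z) + g1 * (x * y ^ 2) + g3 * (x * z ^ 2) + g2 * (x * y * z) + t0 * y ^ 3 + t1 * (y ^ 2 * z) + t2 * (y * z ^ 2) + t3 * z ^ 3)
  u1 : ∀ x y z : ℝ, (2 * a * x + d * y + e * z) * (2 * b * y + d * x + f * z)
      + (2 * b * y + d * x + f * z) * (q0 * x + q1 * y + q2 * z)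
      + (2 * c * z + e * x + f * y) * (q3 * x + q4 * y + q5 * z)
      = (ky * x ^ 2 + 2 * g1 * (x * y) + g2 * (x * z) + 3 * t0 * y ^ 2 + 2 * t1 * (y * z) + t2 * z ^ 2)
  w1 : ∀ x y z : ℝ, (3 * k0 * x ^ 2 + 2 * ky * (x * y) + 2 * kz * (x * z) + g1 * y ^ 2 + g3 * z ^ 2 + g2 * (y * z)) * (2 * b * y + d * x + f * z)
      + (ky * x ^ 2 + 2 * g1 * (x * y) + g2 * (x * z) + 3 * t0 * y ^ 2 + 2 * t1 * (y * z) + t2 * z ^ 2) * (q0 * x + q1 * y + q2 * z)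
      + (kz * x ^ 2 + 2 * g3 * (x * z) + g2 * (x * y) + t1 * y ^ 2 + 2 * t2 * (y * z) + 3 * t3 * z ^ 2) * (q3 * x + q4 * y + q5 * z)
      = 0
  u2 : ∀ x y z : ℝ, (2 * a * x + d * y + e * z) * (2 * c * z + e * x + f * y)
      + (2 * b * y + d * x + f * z) * (r0 * x + r1 * y + r2 * z)
      + (2 * c * z + e * x + f * y) * (r3 * x + r4 * y + r5 * z)
      = (kz * x ^ 2 + 2 * g3 * (x * z) + g2 * (x * y) + t1 * y ^ 2 + 2 * t2 * (y * z) + 3 * t3 * z ^ 2)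
  w2 : ∀ x y z : ℝ, (3 * k0 * x ^ 2 + 2 * ky * (x * y) + 2 * kz * (x * z) + g1 * y ^ 2 + g3 * z ^ 2 + g2 * (y * z)) * (2 * c * z + e * x + f * y)
      + (ky * x ^ 2 + 2 * g1 * (x * y) + g2 * (x * z) + 3 * t0 * y ^ 2 + 2 * t1 * (y * z) + t2 * z ^ 2) * (r0 * x + r1 * y + r2 * z)
      + (kz * x ^ 2 + 2 * g3 * (x * z) + g2 * (x * y) + t1 * y ^ 2 + 2 * t2 * (y * z) + 3 * t3 * z ^ 2) * (r3 * x + r4 * y + r5 * z)
      = 0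

theorem FE.ce {a b c d e f k0 ky kz g1 g3 g2 t0 t1 t2 t3 : ℝ}
    {p0 p1 p2 q0 q1 q2 r0 r1 r2 p3 p4 p5 q3 q4 q5 r3 r4 r5 : ℝ}
    (h : FE a b c d e f k0 ky kz g1 g3 g2 t0 t1 t2 t3
      p0 p1 p2 q0 q1 q2 r0 r1 r2 p3 p4 p5 q3 q4 q5 r3 r4 r5) :
    CE a b c d e f k0 ky kz g1 g3 g2 t0 t1 t2 t3
      p0 p1 p2 q0 q1 q2 r0 r1 r2 p3 p4 p5 q3 q4 q5 r3 r4 r5 := by
  obtain ⟨hu0_xx, hu0_yy, hu0_zz, hu0_xy, hu0_xz, hu0_yz⟩ := quad_zero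
      (a := -a + 4 * a ^ 2 - 3 * k0 + d * p0 + e * p3)
      (b := b + d ^ 2 - g1 + 2 * b * p1 + f * p4)
      (c := c + e ^ 2 - g3 + 2 * c * p5 + f * p2)
      (d := -2 * ky + 4 * a * d + 2 * b * p0 + d * p1 + e * p4 + f * p3)
      (e := -2 * kz + 4 * a * e + 2 * c * p3 + d * p2 + e * p5 + f * p0)
      (f := f - g2 + 2 * b * p2 + 2 * c * p4 + 2 * d * e + f * p1 + f * p5)
      (fun x y z => by linear_combination h.u0 x y z)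
  obtain ⟨hw0_xxx, hw0_xxy, hw0_xxz, hw0_xyy, hw0_xzz, hw0_xyz, hw0_yyy, hw0_yyz, hw0_yzz, hw0_zzz⟩ := cub_zero
      (k0 := -2 * k0 + 6 * a * k0 + ky * p0 + kz * p3)
      (ky := -ky + 4 * a * ky + 3 * d * k0 + 2 * g1 * p0 + g2 * p3 + ky * p1 + kz * p4)
      (kz := -kz + 4 * a * kz + 3 * e * k0 + g2 * p0 + 2 * g3 * p3 + ky * p2 + kz * p5)
      (g1 := 2 * a * g1 + 2 * d * ky + 2 * g1 * p1 + g2 * p4 + 3 * p0 * t0 + p3 * t1)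
      (g3 := 2 * a * g3 + 2 * e * kz + g2 * p2 + 2 * g3 * p5 + p0 * t2 + 3 * p3 * t3)
      (g2 := 2 * a * g2 + 2 * d * kz + 2 * e * ky + 2 * g1 * p2 + g2 * p1 + g2 * p5 + 2 * g3 * p4 + 2 * p0 * t1 + 2 * p3 * t2)
      (t0 := t0 + d * g1 + 3 * p1 * t0 + p4 * t1)
      (t1 := t1 + d * g2 + e * g1 + 2 * p1 * t1 + 3 * p2 * t0 + 2 * p4 * t2 + p5 * t1)
      (t2 := t2 + d * g3 + e * g2 + p1 * t2 + 2 * p2 * t1 + 3 * p4 * t3 + 2 * p5 * t2)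
      (t3 := t3 + e * g3 + p2 * t2 + 3 * p5 * t3)
      (fun x y z => by linear_combination h.w0 x y z)
  obtain ⟨hu1_xx, hu1_yy, hu1_zz, hu1_xy, hu1_xz, hu1_yz⟩ := quad_zero
      (a := -ky + 2 * a * d + d * q0 + e * q3)
      (b := -3 * t0 + 2 * b * d + 2 * b * q1 + f * q4)
      (c := -t2 + 2 * c * q5 + e * f + f * q2)
      (d := d ^ 2 - 2 * g1 + 4 * a * b + 2 * b * q0 + d * q1 + e * q4 + f * q3)
      (e := -g2 + 2 * a * f + 2 * c * q3 + d * e + d * q2 + e * q5 + f * q0)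
      (f := -2 * t1 + 2 * b * e + 2 * b * q2 + 2 * c * q4 + d * f + f * q1 + f * q5)
      (fun x y z => by linear_combination h.u1 x y z)
  obtain ⟨hw1_xxx, hw1_xxy, hw1_xxz, hw1_xyy, hw1_xzz, hw1_xyz, hw1_yyy, hw1_yyz, hw1_yzz, hw1_zzz⟩ := cub_zero
      (k0 := 3 * d * k0 + ky * q0 + kz * q3)
      (ky := 6 * b * k0 + 2 * d * ky + 2 * g1 * q0 + g2 * q3 + ky * q1 + kz * q4)
      (kz := 2 * d * kz + 3 * f * k0 + g2 * q0 + 2 * g3 * q3 + ky * q2 + kz * q5)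
      (g1 := 4 * b * ky + d * g1 + 2 * g1 * q1 + g2 * q4 + 3 * q0 * t0 + q3 * t1)
      (g3 := d * g3 + 2 * f * kz + g2 * q2 + 2 * g3 * q5 + q0 * t2 + 3 * q3 * t3)
      (g2 := 4 * b * kz + d * g2 + 2 * f * ky + 2 * g1 * q2 + g2 * q1 + g2 * q5 + 2 * g3 * q4 + 2 * q0 * t1 + 2 * q3 * t2)
      (t0 := 2 * b * g1 + 3 * q1 * t0 + q4 * t1)
      (t1 := 2 * b * g2 + f * g1 + 2 * q1 * t1 + 3 * q2 * t0 + 2 * q4 * t2 + q5 * t1)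
      (t2 := 2 * b * g3 + f * g2 + q1 * t2 + 2 * q2 * t1 + 3 * q4 * t3 + 2 * q5 * t2)
      (t3 := f * g3 + q2 * t2 + 3 * q5 * t3)
      (fun x y z => by linear_combination h.w1 x y z)
  obtain ⟨hu2_xx, hu2_yy, hu2_zz, hu2_xy, hu2_xz, hu2_yz⟩ := quad_zero
      (a := -kz + 2 * a * e + d * r0 + e * r3)
      (b := -t1 + 2 * b * r1 + d * f + f * r4)
      (c := -3 * t3 + 2 * c * e + 2 * c * r5 + f * r2)
      (d := -g2 + 2 * a * f + 2 * b * r0 + d * e + d * r1 + e * r4 + f * r3)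
      (e := e ^ 2 - 2 * g3 + 4 * a * c + 2 * c * r3 + d * r2 + e * r5 + f * r0)
      (f := -2 * t2 + 2 * b * r2 + 2 * c * d + 2 * c * r4 + e * f + f * r1 + f * r5)
      (fun x y z => by linear_combination h.u2 x y z)
  obtain ⟨hw2_xxx, hw2_xxy, hw2_xxz, hw2_xyy, hw2_xzz, hw2_xyz, hw2_yyy, hw2_yyz, hw2_yzz, hw2_zzz⟩ := cub_zero
      (k0 := 3 * e * k0 + ky * r0 + kz * r3)
      (ky := 2 * e * ky + 3 * f * k0 + 2 * g1 * r0 + g2 * r3 + ky * r1 + kz * r4)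
      (kz := 6 * c * k0 + 2 * e * kz + g2 * r0 + 2 * g3 * r3 + ky * r2 + kz * r5)
      (g1 := e * g1 + 2 * f * ky + 2 * g1 * r1 + g2 * r4 + 3 * r0 * t0 + r3 * t1)
      (g3 := 4 * c * kz + e * g3 + g2 * r2 + 2 * g3 * r5 + r0 * t2 + 3 * r3 * t3)
      (g2 := 4 * c * ky + e * g2 + 2 * f * kz + 2 * g1 * r2 + g2 * r1 + g2 * r5 + 2 * g3 * r4 + 2 * r0 * t1 + 2 * r3 * t2)
      (t0 := f * g1 + 3 * r1 * t0 + r4 * t1)
      (t1 := 2 * c * g1 + f * g2 + 2 * r1 * t1 + 3 * r2 * t0 + 2 * r4 * t2 + r5 * t1)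
      (t2 := 2 * c * g2 + f * g3 + r1 * t2 + 2 * r2 * t1 + 3 * r4 * t3 + 2 * r5 * t2)
      (t3 := 2 * c * g3 + r2 * t2 + 3 * r5 * t3)
      (fun x y z => by linear_combination h.w2 x y z)
  exact ⟨hu0_xx, hu0_yy, hu0_zz, hu0_xy, hu0_xz, hu0_yz, hw0_xxx, hw0_xxy, hw0_xxz, hw0_xyy, hw0_xzz, hw0_xyz, hw0_yyy, hw0_yyz, hw0_yzz, hw0_zzz, hu1_xx, hu1_yy, hu1_zz, hu1_xy, hu1_xz, hu1_yz, hw1_xxx, hw1_xxy, hw1_xxz, hw1_xyy, hw1_xzz, hw1_xyz, hw1_yyy, hw1_yyz, hw1_yzz, hw1_zzz, hu2_xx, hu2_yy, hu2_zz, hu2_xy, hu2_xz, hu2_yz, hw2_xxx, hw2_xxy, hw2_xxz, hw2_xyy, hw2_xzz, hw2_xyz, hw2_yyy, hw2_yyz, hw2_yzz, hw2_zzz⟩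

theorem ev_qd (a b c d e f : ℝ) (v : Fin 3 → ℝ) : eval v (qd a b c d e f) =
    a * v 0 ^ 2 + b * v 1 ^ 2 + c * v 2 ^ 2 + d * (v 0 * v 1) + e * (v 0 * v 2)
      + f * (v 1 * v 2) := by
  simp [qd]

theorem ev_cb (k0 ky kz g1 g3 g2 t0 t1 t2 t3 : ℝ) (v : Fin 3 → ℝ) :
    eval v (cb k0 ky kz g1 g3 g2 t0 t1 t2 t3) =
    k0 * v 0 ^ 3 + ky * (v 0 ^ 2 * v 1) + kz * (v 0 ^ 2 * v 2) + g1 * (v 0 * v 1 ^ 2)
      + g3 * (v 0 * v 2 ^ 2) + g2 * (v 0 * v 1 * v 2) + t0 * v 1 ^ 3 + t1 * (v 1 ^ 2 * v 2)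
      + t2 * (v 1 * v 2 ^ 2) + t3 * v 2 ^ 3 := by
  simp [cb]

theorem ev_ln (a b c : ℝ) (v : Fin 3 → ℝ) : eval v (ln a b c) = a * v 0 + b * v 1 + c * v 2 := by
  simp [ln]

theorem pd_qd (a b c d e f : ℝ) (v : Fin 3 → ℝ) :
    eval v (pderiv 0 (qd a b c d e f)) = 2 * a * v 0 + d * v 1 + e * v 2 ∧
    eval v (pderiv 1 (qd a b c d e f)) = 2 * b * v 1 + d * v 0 + f * v 2 ∧
    eval v (pderiv 2 (qd a b c d e f)) = 2 * c * v 2 + e * v 0 + f * v 1 := by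
  refine ⟨?_, ?_, ?_⟩ <;>
  · simp [qd, pderiv_X]
    ring

theorem pd_cb (k0 ky kz g1 g3 g2 t0 t1 t2 t3 : ℝ) (v : Fin 3 → ℝ) :
    eval v (pderiv 0 (cb k0 ky kz g1 g3 g2 t0 t1 t2 t3)) =
      3 * k0 * v 0 ^ 2 + 2 * ky * (v 0 * v 1) + 2 * kz * (v 0 * v 2) + g1 * v 1 ^ 2
        + g3 * v 2 ^ 2 + g2 * (v 1 * v 2) ∧
    eval v (pderiv 1 (cb k0 ky kz g1 g3 g2 t0 t1 t2 t3)) =
      ky * v 0 ^ 2 + 2 * g1 * (v 0 * v 1) + g2 * (v 0 * v 2) + 3 * t0 * v 1 ^ 2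
        + 2 * t1 * (v 1 * v 2) + t2 * v 2 ^ 2 ∧
    eval v (pderiv 2 (cb k0 ky kz g1 g3 g2 t0 t1 t2 t3)) =
      kz * v 0 ^ 2 + 2 * g3 * (v 0 * v 2) + g2 * (v 0 * v 1) + t1 * v 1 ^ 2
        + 2 * t2 * (v 1 * v 2) + 3 * t3 * v 2 ^ 2 := by
  refine ⟨?_, ?_, ?_⟩ <;>
  · simp [cb, pderiv_X]
    ring

/-- the rows of the matrix equation -/
theorem rows {u w : P3} (hg : Good ![X 0, u, w]) :
    (∃ L1 L2 : Fin 3 → P3, (∀ j, (L1 j).IsHomogeneous 1) ∧ (∀ j, (L2 j).IsHomogeneous 1) ∧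
      (∀ j, pderiv 0 u * (-X 0 * pderiv j (X 0) + pderiv j u) + pderiv 1 u * L1 j
        + pderiv 2 u * L2 j = -u * pderiv j (X 0) + pderiv j w) ∧
      (∀ j, pderiv 0 w * (-X 0 * pderiv j (X 0) + pderiv j u) + pderiv 1 w * L1 j
        + pderiv 2 w * L2 j = -w * pderiv j (X 0))) ∧
    pderiv 1 u * pderiv 2 w - pderiv 2 u * pderiv 1 w ≠ 0 := by
  obtain ⟨-, hdet, L, hL, heq⟩ := hg
  have e0 : ∀ j, L 0 j = -X 0 * pderiv j (X 0) + pderiv j u := by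
    intro j
    have h := congrFun (congrFun heq 0) j
    rw [Matrix.mul_apply, Matrix.mul_apply, Fin.sum_univ_three, Fin.sum_univ_three] at h
    simpa [jac, Helper28.Nij.comp, pderiv_X, Pi.single_apply] using h
  have e1 : ∀ j, pderiv 0 u * L 0 j + pderiv 1 u * L 1 j + pderiv 2 u * L 2 j =
      -u * pderiv j (X 0) + pderiv j w := by
    intro j
    have h := congrFun (congrFun heq 1) j
    rw [Matrix.mul_apply, Matrix.mul_apply, Fin.sum_univ_three, Fin.sum_univ_three] at h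
    simpa [jac, Helper28.Nij.comp] using h
  have e2 : ∀ j, pderiv 0 w * L 0 j + pderiv 1 w * L 1 j + pderiv 2 w * L 2 j =
      -w * pderiv j (X 0) := by
    intro j
    have h := congrFun (congrFun heq 2) j
    rw [Matrix.mul_apply, Matrix.mul_apply, Fin.sum_univ_three, Fin.sum_univ_three] at h
    simpa [jac, Helper28.Nij.comp] using h
  refine ⟨⟨L 1, L 2, fun j => hL 1 j, fun j => hL 2 j, fun j => ?_, fun j => ?_⟩, ?_⟩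
  · rw [← e0, e1]
  · rw [← e0, e2]
  · intro h
    apply hdet
    rw [Matrix.det_fin_three]
    simp [jac, pderiv_X, Pi.single_apply]
    linear_combination h

theorem good_fe (a b c d e f k0 ky kz g1 g3 g2 t0 t1 t2 t3 : ℝ)
    (hg : Good ![X 0, qd a b c d e f, cb k0 ky kz g1 g3 g2 t0 t1 t2 t3]) :
    (∃ p0 p1 p2 q0 q1 q2 r0 r1 r2 p3 p4 p5 q3 q4 q5 r3 r4 r5 : ℝ,
      FE a b c d e f k0 ky kz g1 g3 g2 t0 t1 t2 t3
        p0 p1 p2 q0 q1 q2 r0 r1 r2 p3 p4 p5 q3 q4 q5 r3 r4 r5) ∧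
    ¬ ∀ x y z : ℝ, (2 * b * y + d * x + f * z) * (kz * x ^ 2 + 2 * g3 * (x * z) + g2 * (x * y) + t1 * y ^ 2 + 2 * t2 * (y * z) + 3 * t3 * z ^ 2)
      - (2 * c * z + e * x + f * y) * (ky * x ^ 2 + 2 * g1 * (x * y) + g2 * (x * z) + 3 * t0 * y ^ 2 + 2 * t1 * (y * z) + t2 * z ^ 2) = 0 := by
  obtain ⟨⟨L1, L2, hL1, hL2, e1, e2⟩, hdet⟩ := rows hg
  obtain ⟨p0, p1, p2, hp⟩ := hom1 (hL1 0)
  obtain ⟨q0, q1, q2, hq⟩ := hom1 (hL1 1)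
  obtain ⟨r0, r1, r2, hr⟩ := hom1 (hL1 2)
  obtain ⟨p3, p4, p5, hp'⟩ := hom1 (hL2 0)
  obtain ⟨q3, q4, q5, hq'⟩ := hom1 (hL2 1)
  obtain ⟨r3, r4, r5, hr'⟩ := hom1 (hL2 2)
  constructor
  · refine ⟨p0, p1, p2, q0, q1, q2, r0, r1, r2, p3, p4, p5, q3, q4, q5, r3, r4, r5, ?_, ?_, ?_, ?_, ?_, ?_⟩
    · intro x y z
      have h := congrArg (eval ![x, y, z]) (e1 0)
      rw [hp, hp'] at h
      simp only [map_add, map_mul, map_neg, (pd_qd a b c d e f _).1, (pd_qd a b c d e f _).2.1,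
        (pd_qd a b c d e f _).2.2, (pd_cb k0 ky kz g1 g3 g2 t0 t1 t2 t3 _).1,
        (pd_cb k0 ky kz g1 g3 g2 t0 t1 t2 t3 _).2.1, (pd_cb k0 ky kz g1 g3 g2 t0 t1 t2 t3 _).2.2,
        ev_qd, ev_cb, ev_ln, pderiv_X_self, map_one, eval_X] at h
      simp at h
      linear_combination h
    · intro x y z
      have h := congrArg (eval ![x, y, z]) (e2 0)
      rw [hp, hp'] at h
      simp only [map_add, map_mul, map_neg, (pd_qd a b c d e f _).1, (pd_qd a b c d e f _).2.1,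
        (pd_qd a b c d e f _).2.2, (pd_cb k0 ky kz g1 g3 g2 t0 t1 t2 t3 _).1,
        (pd_cb k0 ky kz g1 g3 g2 t0 t1 t2 t3 _).2.1, (pd_cb k0 ky kz g1 g3 g2 t0 t1 t2 t3 _).2.2,
        ev_qd, ev_cb, ev_ln, pderiv_X_self, map_one, eval_X] at h
      simp at h
      linear_combination h
    · intro x y z
      have h := congrArg (eval ![x, y, z]) (e1 1)
      rw [hq, hq'] at h
      simp only [map_add, map_mul, map_neg, (pd_qd a b c d e f _).1, (pd_qd a b c d e f _).2.1,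
        (pd_qd a b c d e f _).2.2, (pd_cb k0 ky kz g1 g3 g2 t0 t1 t2 t3 _).1,
        (pd_cb k0 ky kz g1 g3 g2 t0 t1 t2 t3 _).2.1, (pd_cb k0 ky kz g1 g3 g2 t0 t1 t2 t3 _).2.2,
        ev_qd, ev_cb, ev_ln, pderiv_X_self, map_one, eval_X] at h
      simp [pderiv_X] at h
      linear_combination h
    · intro x y z
      have h := congrArg (eval ![x, y, z]) (e2 1)
      rw [hq, hq'] at h
      simp only [map_add, map_mul, map_neg, (pd_qd a b c d e f _).1, (pd_qd a b c d e f _).2.1,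
        (pd_qd a b c d e f _).2.2, (pd_cb k0 ky kz g1 g3 g2 t0 t1 t2 t3 _).1,
        (pd_cb k0 ky kz g1 g3 g2 t0 t1 t2 t3 _).2.1, (pd_cb k0 ky kz g1 g3 g2 t0 t1 t2 t3 _).2.2,
        ev_qd, ev_cb, ev_ln, pderiv_X_self, map_one, eval_X] at h
      simp [pderiv_X] at h
      linear_combination h
    · intro x y z
      have h := congrArg (eval ![x, y, z]) (e1 2)
      rw [hr, hr'] at h
      simp only [map_add, map_mul, map_neg, (pd_qd a b c d e f _).1, (pd_qd a b c d e f _).2.1,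
        (pd_qd a b c d e f _).2.2, (pd_cb k0 ky kz g1 g3 g2 t0 t1 t2 t3 _).1,
        (pd_cb k0 ky kz g1 g3 g2 t0 t1 t2 t3 _).2.1, (pd_cb k0 ky kz g1 g3 g2 t0 t1 t2 t3 _).2.2,
        ev_qd, ev_cb, ev_ln, pderiv_X_self, map_one, eval_X] at h
      simp [pderiv_X] at h
      linear_combination h
    · intro x y z
      have h := congrArg (eval ![x, y, z]) (e2 2)
      rw [hr, hr'] at h
      simp only [map_add, map_mul, map_neg, (pd_qd a b c d e f _).1, (pd_qd a b c d e f _).2.1,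
        (pd_qd a b c d e f _).2.2, (pd_cb k0 ky kz g1 g3 g2 t0 t1 t2 t3 _).1,
        (pd_cb k0 ky kz g1 g3 g2 t0 t1 t2 t3 _).2.1, (pd_cb k0 ky kz g1 g3 g2 t0 t1 t2 t3 _).2.2,
        ev_qd, ev_cb, ev_ln, pderiv_X_self, map_one, eval_X] at h
      simp [pderiv_X] at h
      linear_combination h
  · intro h
    apply hdet
    apply MvPolynomial.funext
    intro v
    simp only [map_sub, map_mul, (pd_qd a b c d e f _).2.1, (pd_qd a b c d e f _).2.2,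
      (pd_cb k0 ky kz g1 g3 g2 t0 t1 t2 t3 _).2.1, (pd_cb k0 ky kz g1 g3 g2 t0 t1 t2 t3 _).2.2,
      map_zero]
    linear_combination h (v 0) (v 1) (v 2)

end Pool.Agent.Helper36.Nij3
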