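import Mathlib
import Pool.Agent.Helper36.Nij3.Forms

/-!
# Normal forms, and collections with a linear factor
-/

open MvPolynomial Matrix

set_option linter.unusedSimpArgs false

namespace Pool.Agent.Helper36.Nij3

open Pool.Agent.Helper28.Nij

/-- `P = (t + x)(t² + y t + r)` -/
noncomputable def nfF (r : P3) : Fin 3 → P3 := ![X 0 + X 1, X 0 * X 1 + r, X 0 * r]

/-- the normal form without linear factor -/
noncomputable def nfT : Fin 3 → P3 := ![X 0, X 1 * X 2, X 1 ^ 3]

/-- the eight normal forms -/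
noncomputable def nf : Fin 8 → Fin 3 → P3 :=
  ![nfF (C (1 / 4) * X 1 ^ 2 - X 2 ^ 2), nfF (C (1 / 4) * X 1 ^ 2 + X 2 ^ 2),
    nfF (X 2 ^ 2), nfF (-X 2 ^ 2),
    nfF (X 0 * (X 1 - X 0) + X 2 ^ 2), nfF (X 0 * (X 1 - X 0) - X 2 ^ 2),
    nfF (X 0 * X 2), nfT]

/-- being equivalent to one of the normal forms -/
def Cl (σ : Fin 3 → P3) : Prop := ∃ i : Fin 8, LinEquiv (nf i) σ

theorem Cl.of_linEquiv {σ τ : Fin 3 → P3} (h : LinEquiv σ τ) (hτ : Cl τ) : Cl σ := by
  obtain ⟨i, hi⟩ := hτ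
  exact ⟨i, linEquiv_trans hi (linEquiv_symm h)⟩

/-- the equations for a collection with a linear factor -/
theorem fac_eqns {r : P3} (hg : Good (nfF r)) :
    (∃ A B : P3, A.IsHomogeneous 1 ∧ B.IsHomogeneous 1 ∧
      pderiv 0 r * (pderiv 1 r - X 0) + pderiv 2 r * A = 0 ∧
      pderiv 1 r * pderiv 1 r - X 1 * pderiv 1 r + r + pderiv 2 r * B = 0) ∧
    pderiv 2 r ≠ 0 := by
  obtain ⟨-, hdet, L, hL, heq⟩ := hg
  have hdet' : pderiv 2 r * (X 0 ^ 2 - X 0 * X 1 + r) ≠ 0 := by
    intro h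
    apply hdet
    rw [Matrix.det_fin_three]
    simp [jac, nfF, pderiv_X, Pi.single_apply]
    linear_combination h
  have hz : pderiv 2 r ≠ 0 := left_ne_zero_of_mul hdet'
  have hS : X 0 ^ 2 - X 0 * X 1 + r ≠ 0 := right_ne_zero_of_mul hdet'
  have a0 := fun j => congrFun (congrFun heq 0) j
  have a1 := fun j => congrFun (congrFun heq 1) j
  have a2 := fun j => congrFun (congrFun heq 2) j
  simp only [Matrix.mul_apply, Fin.sum_univ_three] at a0 a1 a2
  refine ⟨⟨L 2 0, L 2 1, hL 2 0, hL 2 1, ?_, ?_⟩, hz⟩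
  · have b0 := a0 0
    have b1 := a1 0
    have b2 := a2 0
    simp [jac, nfF, Helper28.Nij.comp, pderiv_X, Pi.single_apply] at b0 b1 b2
    have e : (X 0 ^ 2 - X 0 * X 1 + r) * (L 0 0 + X 0) = 0 := by
      linear_combination X 0 ^ 2 * b0 - X 0 * b1 + b2
    have e' : L 0 0 = -X 0 := by
      rcases mul_eq_zero.mp e with h | h
      · exact absurd h hS
      · linear_combination h
    rw [e'] at b0 b1
    linear_combination b1 - (X 0 + pderiv 1 r) * b0
  · have b0 := a0 1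
    have b1 := a1 1
    have b2 := a2 1
    simp [jac, nfF, Helper28.Nij.comp, pderiv_X, Pi.single_apply] at b0 b1 b2
    have e : (X 0 ^ 2 - X 0 * X 1 + r) * (L 0 1) = 0 := by
      linear_combination X 0 ^ 2 * b0 - X 0 * b1 + b2
    have e' : L 0 1 = 0 := by
      rcases mul_eq_zero.mp e with h | h
      · exact absurd h hS
      · exact h
    rw [e'] at b0 b1
    linear_combination b1 - (X 0 + pderiv 1 r) * b0


theorem ev_nfF (r : P3) (v : Fin 3 → ℝ) : eval v (nfF r 0) = v 0 + v 1 ∧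
    eval v (nfF r 1) = v 0 * v 1 + eval v r ∧ eval v (nfF r 2) = v 0 * eval v r := by
  simp [nfF]

/-- equivalence of collections with a linear factor, `x` and `y` fixed -/
theorem nfF_linEquiv {r s : P3} (p q t : ℝ) (ht : t ≠ 0)
    (h : ∀ x y z : ℝ, eval ![x, y, z] s = eval ![x, y, p * x + q * y + t * z] r) :
    LinEquiv (nfF r) (nfF s) := by
  refine linEquiv_of_eval !![1, 0, 0; 0, 1, 0; p, q, t] ?_ ?_
  · rw [Matrix.det_fin_three]
    simpa using ht
  · intro i v
    have hv : v = ![v 0, v 1, v 2] := by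
      funext j
      fin_cases j <;> rfl
    have hA : (!![1, 0, 0; 0, 1, 0; p, q, t] : Matrix (Fin 3) (Fin 3) ℝ) *ᵥ v =
        ![v 0, v 1, p * v 0 + q * v 1 + t * v 2] := by
      funext j
      fin_cases j <;> simp [Matrix.mulVec, dotProduct, Fin.sum_univ_three]
    have hs : eval v s = eval ![v 0, v 1, p * v 0 + q * v 1 + t * v 2] r := by
      have := h (v 0) (v 1) (v 2)
      rwa [← hv] at this
    rw [hA]
    fin_cases i
    · show eval v (nfF s 0) = eval _ (nfF r 0)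
      rw [(ev_nfF s v).1, (ev_nfF r _).1]
      simp
    · show eval v (nfF s 1) = eval _ (nfF r 1)
      rw [(ev_nfF s v).2.1, (ev_nfF r _).2.1, hs]
      simp
    · show eval v (nfF s 2) = eval _ (nfF r 2)
      rw [(ev_nfF s v).2.2, (ev_nfF r _).2.2, hs]
      simp

/-- the coefficient equations -/
theorem fac_coef {a b c d e f : ℝ} (hg : Good (nfF (qd a b c d e f))) :
    ∃ p0 p1 p2 q0 q1 q2 : ℝ,
      (2 * a * (d - 1) + e * p0 = 0 ∧ 2 * b * d + f * p1 = 0 ∧ e * f + 2 * c * p2 = 0 ∧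
        4 * a * b + d * (d - 1) + e * p1 + f * p0 = 0 ∧
        2 * a * f + e * (d - 1) + e * p2 + 2 * c * p0 = 0 ∧
        d * f + 2 * b * e + f * p2 + 2 * c * p1 = 0) ∧
      (d ^ 2 + a + e * q0 = 0 ∧ 4 * b ^ 2 - b + f * q1 = 0 ∧ f ^ 2 + c + 2 * c * q2 = 0 ∧
        4 * b * d + f * q0 + e * q1 = 0 ∧ 2 * d * f + e + e * q2 + 2 * c * q0 = 0 ∧
        4 * b * f + f * q2 + 2 * c * q1 = 0) ∧ ¬ (c = 0 ∧ e = 0 ∧ f = 0) := by
  obtain ⟨⟨A, B, hA, hB, e1, e2⟩, hz⟩ := fac_eqns hg
  obtain ⟨p0, p1, p2, rfl⟩ := hom1 hA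
  obtain ⟨q0, q1, q2, rfl⟩ := hom1 hB
  refine ⟨p0, p1, p2, q0, q1, q2, ?_, ?_, ?_⟩
  · apply quad_zero
    intro x y z
    have h := congrArg (eval ![x, y, z]) e1
    simp only [map_add, map_mul, map_sub, (pd_qd a b c d e f _).1, (pd_qd a b c d e f _).2.1,
        (pd_qd a b c d e f _).2.2, ev_ln, eval_X] at h
    simp at h
    linear_combination h
  · apply quad_zero
    intro x y z
    have h := congrArg (eval ![x, y, z]) e2
    simp only [map_add, map_mul, map_sub, (pd_qd a b c d e f _).1, (pd_qd a b c d e f _).2.1,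
        (pd_qd a b c d e f _).2.2, ev_ln, ev_qd, eval_X] at h
    simp at h
    linear_combination h
  · rintro ⟨rfl, rfl, rfl⟩
    apply hz
    apply MvPolynomial.funext
    intro v
    rw [(pd_qd a b 0 d 0 0 v).2.2]
    simp

theorem fac_cl_simple {a b c d : ℝ} (hg : Good (nfF (qd a b c d 0 0))) (hc : c ≠ 0) :
    Cl (nfF (qd a b c d 0 0)) := by
  obtain ⟨p0, p1, p2, q0, q1, q2, ⟨h1, h2, -, -, -, -⟩, ⟨h3, h4, -, -, -, -⟩, -⟩ := fac_coef hg
  have hb : b = 0 ∨ b = 1 / 4 := by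
    have : b * (4 * b - 1) = 0 := by linear_combination h4
    rcases mul_eq_zero.mp this with h | h
    · exact Or.inl h
    · right; linarith
  have hcases : (a = 0 ∧ d = 0) ∨ (a = -1 ∧ b = 0 ∧ d = 1) := by
    by_cases hd : d = 0
    · left
      subst hd
      exact ⟨by linarith, rfl⟩
    · right
      have ha : a ≠ 0 := by
        intro ha
        apply hd
        have : d ^ 2 = 0 := by linarith
        exact pow_eq_zero_iff (two_ne_zero) |>.mp this
      have hd1 : d = 1 := by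
        have : a * (d - 1) = 0 := by linarith
        rcases mul_eq_zero.mp this with h | h
        · exact absurd h ha
        · linarith
      subst hd1
      exact ⟨by linarith, by linarith, rfl⟩
  rcases lt_or_gt_of_ne hc with hneg | hpos
  · -- negative coefficient
    have hs : Real.sqrt (-c) ^ 2 = -c := Real.sq_sqrt (by linarith)
    have ht : Real.sqrt (-c) ≠ 0 := (Real.sqrt_pos.mpr (by linarith)).ne'
    rcases hcases with ⟨rfl, rfl⟩ | ⟨rfl, rfl, rfl⟩
    · rcases hb with rfl | rfl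
      · refine ⟨3, nfF_linEquiv 0 0 (Real.sqrt (-c)) ht fun x y z => ?_⟩
        simp [ev_qd]
        linear_combination z ^ 2 * hs
      · refine ⟨0, nfF_linEquiv 0 0 (Real.sqrt (-c)) ht fun x y z => ?_⟩
        simp [ev_qd]
        linear_combination z ^ 2 * hs
    · refine ⟨5, nfF_linEquiv 0 0 (Real.sqrt (-c)) ht fun x y z => ?_⟩
      simp [ev_qd]
      linear_combination z ^ 2 * hs
  · have hs : Real.sqrt c ^ 2 = c := Real.sq_sqrt hpos.le
    have ht : Real.sqrt c ≠ 0 := (Real.sqrt_pos.mpr hpos).ne'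
    rcases hcases with ⟨rfl, rfl⟩ | ⟨rfl, rfl, rfl⟩
    · rcases hb with rfl | rfl
      · refine ⟨2, nfF_linEquiv 0 0 (Real.sqrt c) ht fun x y z => ?_⟩
        simp [ev_qd]
        linear_combination -z ^ 2 * hs
      · refine ⟨1, nfF_linEquiv 0 0 (Real.sqrt c) ht fun x y z => ?_⟩
        simp [ev_qd]
        linear_combination -z ^ 2 * hs
    · refine ⟨4, nfF_linEquiv 0 0 (Real.sqrt c) ht fun x y z => ?_⟩
      simp [ev_qd]
      linear_combination -z ^ 2 * hs

/-- collections with a linear factor, in adapted coordinates -/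
theorem fac_cl {a b c d e f : ℝ} (hg : Good (nfF (qd a b c d e f))) :
    Cl (nfF (qd a b c d e f)) := by
  by_cases hc : c = 0
  · obtain ⟨p0, p1, p2, q0, q1, q2, ⟨-, -, -, -, h5, h6⟩, ⟨-, -, h9, -, -, -⟩, hn⟩ := fac_coef hg
    subst hc
    have hf : f = 0 := by
      have : f ^ 2 = 0 := by linarith
      exact pow_eq_zero_iff (two_ne_zero) |>.mp this
    subst hf
    have he : e ≠ 0 := fun he => hn ⟨rfl, he, rfl⟩
    have hb : b = 0 := by
      have : b * e = 0 := by linarith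
      exact (mul_eq_zero.mp this).resolve_right he
    subst hb
    refine ⟨6, nfF_linEquiv a d e he fun x y z => ?_⟩
    simp [ev_qd]
    ring
  · have hl : LinEquiv (nfF (qd (a - c * (e / (2 * c)) ^ 2) (b - c * (f / (2 * c)) ^ 2) c
        (d - 2 * c * (e / (2 * c)) * (f / (2 * c))) 0 0)) (nfF (qd a b c d e f)) := by
      refine nfF_linEquiv (e / (2 * c)) (f / (2 * c)) 1 one_ne_zero fun x y z => ?_
      simp [ev_qd]
      field_simp
      ring
    exact Cl.of_linEquiv (linEquiv_symm hl) (fac_cl_simple (hg.linEquiv (linEquiv_symm hl)) hc)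

theorem factor_aux {σ : Fin 3 → P3} (hg : Good σ) (A : Matrix (Fin 3) (Fin 3) ℝ)
    (hA : A.det ≠ 0) (h0 : ∀ v, eval (A *ᵥ v) (σ 0) = v 0 + v 1)
    (h2 : ∀ v, eval (A *ᵥ v) (σ 2) = v 0 * (eval (A *ᵥ v) (σ 1) - v 0 * v 1)) : Cl σ := by
  obtain ⟨τ, hl, hτ, he⟩ := hg.chg A hA
  obtain ⟨a, b, c, d, e, f, h1⟩ := hom2 (hτ.1 1)
  have h3 : τ = nfF (qd a b c (d - 1) e f) := by
    funext i
    apply MvPolynomial.funext
    intro v
    have hq : eval v (qd a b c d e f) = eval (A *ᵥ v) (σ 1) := by rw [← h1, he]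
    have hr : eval v (qd a b c (d - 1) e f) = eval v (qd a b c d e f) - v 0 * v 1 := by
      rw [ev_qd, ev_qd]
      ring
    fin_cases i
    · show eval v (τ 0) = eval v (nfF _ 0)
      rw [(ev_nfF _ v).1, he, h0]
    · show eval v (τ 1) = eval v (nfF _ 1)
      rw [(ev_nfF _ v).2.1, h1, hr]
      ring
    · show eval v (τ 2) = eval v (nfF _ 2)
      rw [(ev_nfF _ v).2.2, he, h2, hr, hq]
  rw [h3] at hl hτ
  exact Cl.of_linEquiv hl (fac_cl hτ)

theorem factor_cl {a b c d e f k0 ky kz g1 g3 g2 t0 t1 t2 t3 : ℝ}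
    (hg : Good ![X 0, qd a b c d e f, cb k0 ky kz g1 g3 g2 t0 t1 t2 t3]) (m p q : ℝ)
    (hpq : p ≠ 0 ∨ q ≠ 0)
    (h : ∀ x y z : ℝ, k0 * x ^ 3 + ky * (x ^ 2 * y) + kz * (x ^ 2 * z) + g1 * (x * y ^ 2)
      + g3 * (x * z ^ 2) + g2 * (x * y * z) + t0 * y ^ 3 + t1 * (y ^ 2 * z) + t2 * (y * z ^ 2)
      + t3 * z ^ 3 = (m * x + p * y + q * z) * ((a * x ^ 2 + b * y ^ 2 + c * z ^ 2 + d * (x * y)
      + e * (x * z) + f * (y * z)) - (m * x + p * y + q * z) * (x - (m * x + p * y + q * z)))) :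
    Cl ![X 0, qd a b c d e f, cb k0 ky kz g1 g3 g2 t0 t1 t2 t3] := by
  rcases hpq with hp | hq
  · refine factor_aux hg !![1, 1, 0; (1 - m) / p, -m / p, -q / p; 0, 0, 1] ?_ ?_ ?_
    · rw [Matrix.det_fin_three]
      simp
      intro h0
      apply hp
      field_simp at h0
      linarith
    · intro v
      simp [Matrix.mulVec, dotProduct, Fin.sum_univ_three]
    · intro v
      have hA : (!![1, 1, 0; (1 - m) / p, -m / p, -q / p; 0, 0, 1] : Matrix (Fin 3) (Fin 3) ℝ) *ᵥ v
          = ![v 0 + v 1, (1 - m) / p * v 0 + -m / p * v 1 + -q / p * v 2, v 2] := by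
        funext j
        fin_cases j <;> simp [Matrix.mulVec, dotProduct, Fin.sum_univ_three]
      rw [hA]
      have h1 := h (v 0 + v 1) ((1 - m) / p * v 0 + -m / p * v 1 + -q / p * v 2) (v 2)
      have h2 : m * (v 0 + v 1) + p * ((1 - m) / p * v 0 + -m / p * v 1 + -q / p * v 2)
          + q * v 2 = v 0 := by
        field_simp
        ring
      rw [h2] at h1
      simp [ev_qd, ev_cb]
      linear_combination h1
  · refine factor_aux hg !![1, 1, 0; 0, 0, 1; (1 - m) / q, -m / q, -p / q] ?_ ?_ ?_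
    · rw [Matrix.det_fin_three]
      simp
      intro h0
      apply hq
      field_simp at h0
      linarith
    · intro v
      simp [Matrix.mulVec, dotProduct, Fin.sum_univ_three]
    · intro v
      have hA : (!![1, 1, 0; 0, 0, 1; (1 - m) / q, -m / q, -p / q] : Matrix (Fin 3) (Fin 3) ℝ) *ᵥ v
          = ![v 0 + v 1, v 2, (1 - m) / q * v 0 + -m / q * v 1 + -p / q * v 2] := by
        funext j
        fin_cases j <;> simp [Matrix.mulVec, dotProduct, Fin.sum_univ_three]
      rw [hA]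
      have h1 := h (v 0 + v 1) (v 2) ((1 - m) / q * v 0 + -m / q * v 1 + -p / q * v 2)
      have h2 : m * (v 0 + v 1) + p * v 2
          + q * ((1 - m) / q * v 0 + -m / q * v 1 + -p / q * v 2) = v 0 := by
        field_simp
        ring
      rw [h2] at h1
      simp [ev_qd, ev_cb]
      linear_combination h1

end Pool.Agent.Helper36.Nij3
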