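import Mathlib
import Pool.Agent.Helper36.Nij3.Fac

/-!
# The final cases
-/

open MvPolynomial Matrix

set_option linter.unusedSimpArgs false

namespace Pool.Agent.Helper36.Nij3

open Pool.Agent.Helper28.Nij

/-- the collection with given coefficients -/
noncomputable abbrev S (a b c d e f k0 ky kz g1 g3 g2 t0 t1 t2 t3 : ℝ) : Fin 3 → P3 :=
  ![X 0, qd a b c d e f, cb k0 ky kz g1 g3 g2 t0 t1 t2 t3]

theorem good_ce {a b c d e f k0 ky kz g1 g3 g2 t0 t1 t2 t3 : ℝ}
    (hg : Good (S a b c d e f k0 ky kz g1 g3 g2 t0 t1 t2 t3)) :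
    (∃ p0 p1 p2 q0 q1 q2 r0 r1 r2 p3 p4 p5 q3 q4 q5 r3 r4 r5 : ℝ,
      CE a b c d e f k0 ky kz g1 g3 g2 t0 t1 t2 t3
        p0 p1 p2 q0 q1 q2 r0 r1 r2 p3 p4 p5 q3 q4 q5 r3 r4 r5) ∧
    ¬ ∀ x y z : ℝ, (2 * b * y + d * x + f * z) * (kz * x ^ 2 + 2 * g3 * (x * z) + g2 * (x * y)
      + t1 * y ^ 2 + 2 * t2 * (y * z) + 3 * t3 * z ^ 2)
      - (2 * c * z + e * x + f * y) * (ky * x ^ 2 + 2 * g1 * (x * y) + g2 * (x * z)
      + 3 * t0 * y ^ 2 + 2 * t1 * (y * z) + t2 * z ^ 2) = 0 := by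
  obtain ⟨⟨p0, p1, p2, q0, q1, q2, r0, r1, r2, p3, p4, p5, q3, q4, q5, r3, r4, r5, h⟩, h2⟩ :=
    good_fe _ _ _ _ _ _ _ _ _ _ _ _ _ _ _ _ hg
  exact ⟨⟨p0, p1, p2, q0, q1, q2, r0, r1, r2, p3, p4, p5, q3, q4, q5, r3, r4, r5, h.ce⟩, h2⟩

theorem mz {b x : ℝ} (hb : b ≠ 0) (h : b * x = 0) : x = 0 := (mul_eq_zero.mp h).resolve_left hb

theorem sz {x : ℝ} (h : x ^ 2 = 0) : x = 0 := pow_eq_zero_iff (two_ne_zero) |>.mp h

/-- case H14 -/
theorem h14 {b c t0 t1 t2 t3 : ℝ} (hb : b ≠ 0) (hc : c ≠ 0)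
    (hg : Good (S (1 / 4) b c 0 0 0 0 0 0 (b / 2) (c / 2) 0 t0 t1 t2 t3)) : False := by
  obtain ⟨⟨p0, p1, p2, q0, q1, q2, r0, r1, r2, p3, p4, p5, q3, q4, q5, r3, r4, r5, h⟩, -⟩ :=
    good_ce hg
  have q0z : q0 = 0 := mz hb (by linear_combination h.u1_xy / 2)
  have q3z : q3 = 0 := mz hc (by linear_combination h.u1_xz / 2)
  subst q0z q3z
  have q1z : q1 = 0 := mz hb (by linear_combination h.w1_xyy)
  subst q1z
  have t0z : t0 = 0 := by linear_combination -h.u1_yy / 3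
  have t1z : t1 = 0 := by linear_combination h.w1_xyz - h.u1_yz / 2
  subst t0z t1z
  exact hb (sz (by linear_combination h.w1_yyy))

/-- case D14 -/
theorem d14 {b c g3 t0 t1 t2 t3 : ℝ} (hb : b ≠ 0) (hc : c ≠ 0)
    (hg : Good (S (1 / 4) b c 0 0 0 0 0 0 0 g3 0 t0 t1 t2 t3)) :
    Cl (S (1 / 4) b c 0 0 0 0 0 0 0 g3 0 t0 t1 t2 t3) := by
  obtain ⟨⟨p0, p1, p2, q0, q1, q2, r0, r1, r2, p3, p4, p5, q3, q4, q5, r3, r4, r5, h⟩, hn⟩ :=
    good_ce hg
  have q0z : q0 = -1 / 2 := mul_left_cancel₀ hb (by linear_combination h.u1_xy / 2)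
  have q3z : q3 = 0 := mz hc (by linear_combination h.u1_xz / 2)
  subst q0z q3z
  have t0z : t0 = 0 := by linear_combination -2 / 3 * h.w1_xyy
  subst t0z
  have q1z : q1 = 0 := mz hb (by linear_combination h.u1_yy / 2)
  subst q1z
  have e1 : t1 = 2 * g3 * q4 := by linear_combination -h.w1_xyz
  have e2 : t2 = 2 * c * q5 := by linear_combination -h.u1_zz
  have e3 : t2 = 4 * g3 * q5 := by linear_combination -2 * h.w1_xzz
  have r0z : r0 = 0 := mz hb (by linear_combination h.u2_xy / 2)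
  subst r0z
  have e4 : c * r3 = g3 - c / 2 := by linear_combination h.u2_xz / 2
  have e5 : 3 * t3 = 2 * c * r5 := by linear_combination -h.u2_zz
  have e6 : 2 * g3 * r5 + 3 * r3 * t3 = 0 := by linear_combination h.w2_xzz
  -- the values of `g3`
  have e7 : g3 * r3 = 0 := by linear_combination h.w2_xxz / 2
  have e8 : g3 * (g3 - c / 2) = 0 := by linear_combination -g3 * e4 + c * e7
  rcases mul_eq_zero.mp e8 with hg3 | hg3
  · -- everything vanishes
    exfalso
    subst hg3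
    have t1z : t1 = 0 := by linear_combination e1
    have t2z : t2 = 0 := by linear_combination e3
    have r3z : r3 = -1 / 2 := mul_left_cancel₀ hc (by linear_combination e4)
    subst r3z
    have t3z : t3 = 0 := by linear_combination -2 / 3 * e6
    subst t1z t2z t3z
    exact hn fun x y z => by ring
  · have hg3' : g3 = c / 2 := by linear_combination hg3
    subst hg3'
    have r3z : r3 = 0 := mz hc (by linear_combination e4)
    subst r3z
    have r5z : r5 = 0 := mz hc (by linear_combination e6)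
    subst r5z
    have t3z : t3 = 0 := by linear_combination e5 / 3
    subst t3z
    have t1z : t1 = 0 := sz (by linear_combination t1 * e1 + c * h.w1_yyy)
    subst t1z
    have q4z : q4 = 0 := mz hc (by linear_combination -e1)
    subst q4z
    have e9 : t2 ^ 2 = -b * c ^ 2 := by linear_combination c * h.w1_yzz + t2 * e2
    refine factor_cl hg (1 / 2) (t2 / c) 0 (Or.inl ?_) fun x y z => ?_
    · intro h0
      have h1 : t2 = 0 := by
        field_simp at h0
        linear_combination h0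
      subst h1
      apply hb
      have : c ^ 2 * b = 0 := by linear_combination e9
      exact mz (pow_ne_zero 2 hc) this
    · have e10 : (t2 / c) ^ 2 = -b := by
        rw [div_pow, div_eq_iff (pow_ne_zero 2 hc)]
        linear_combination e9
      have e11 : t2 = t2 / c * c := by field_simp
      set μ := t2 / c
      rw [e11]
      linear_combination (-(x / 2 + μ * y) * y ^ 2) * e10

/-- case N14 -/
theorem n14 {g3 t0 t1 t2 t3 : ℝ}
    (hg : Good (S (1 / 4) 0 0 0 0 1 0 0 0 0 g3 0 t0 t1 t2 t3)) : False := by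
  obtain ⟨⟨p0, p1, p2, q0, q1, q2, r0, r1, r2, p3, p4, p5, q3, q4, q5, r3, r4, r5, h⟩, hn⟩ :=
    good_ce hg
  have q0z : q0 = -1 / 2 := by linear_combination h.u1_xz
  have q3z : q3 = 0 := by linear_combination h.u1_xy
  have r3z : r3 = -1 / 2 := by linear_combination h.u2_xy
  subst q0z q3z r3z
  have g3z : g3 = 0 := by linear_combination -h.w2_xxz
  subst g3z
  have t0z : t0 = 0 := by linear_combination -2 / 3 * h.w1_xyy
  have t1z : t1 = 0 := by linear_combination -h.w1_xyz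
  have t2z : t2 = 0 := by linear_combination -2 * h.w1_xzz
  have r0z : r0 = 0 := by linear_combination h.u2_xz
  subst t0z t1z t2z r0z
  have t3z : t3 = 0 := by linear_combination -2 / 3 * h.w2_xzz
  subst t3z
  exact hn fun x y z => by ring

/-- case N13 -/
theorem n13 {g3 t0 t1 t2 t3 : ℝ} (h0 : g3 ≠ 0 ∨ t0 = 0)
    (hg : Good (S (1 / 3) 0 0 0 0 1 (1 / 27) 0 0 0 g3 (1 / 3) t0 t1 t2 t3)) : False := by
  obtain ⟨⟨p0, p1, p2, q0, q1, q2, r0, r1, r2, p3, p4, p5, q3, q4, q5, r3, r4, r5, h⟩, hn⟩ :=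
    good_ce hg
  have q0z : q0 = -1 / 3 := by linear_combination h.u1_xz
  have q3z : q3 = 0 := by linear_combination h.u1_xy
  have r3z : r3 = -1 / 3 := by linear_combination h.u2_xy
  have r0z : r0 = 2 * g3 := by linear_combination h.u2_xz
  have q4z : q4 = 3 * t0 := by linear_combination h.u1_yy
  have r4z : t1 = r4 := by linear_combination -h.u2_yy
  subst q0z q3z r3z r0z q4z r4z
  have e1 : g3 * t0 = 0 := by linear_combination (h.w1_xyz - h.u1_yz / 3) / 6
  have e2 : g3 * t1 = 0 := by linear_combination (h.w2_xyz - h.u2_yz / 3) / 6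
  have e3 : g3 * q5 = 0 := by linear_combination (h.w1_xzz - h.u1_zz / 3) / 2
  by_cases hg3 : g3 = 0
  · have t0z : t0 = 0 := h0.resolve_left (fun h => h hg3)
    subst hg3 t0z
    have t1z : t1 = 0 := sz (by linear_combination h.w2_yyy)
    subst t1z
    have := h.w2_yyz
    norm_num at this
  · have t0z : t0 = 0 := mz hg3 e1
    have t1z : t1 = 0 := mz hg3 e2
    have q5z : q5 = 0 := mz hg3 e3
    subst t0z t1z q5z
    have q1z : q1 = 0 := by linear_combination h.u1_yz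
    subst q1z
    have := h.w1_yzz
    norm_num at this

/-- case D0 -/
theorem d0 {b c t1 t2 t3 : ℝ} (hb : b ≠ 0)
    (hg : Good (S 0 b c 0 0 0 0 0 0 0 0 0 0 t1 t2 t3)) : False := by
  obtain ⟨⟨p0, p1, p2, q0, q1, q2, r0, r1, r2, p3, p4, p5, q3, q4, q5, r3, r4, r5, h⟩, hn⟩ :=
    good_ce hg
  have q1z : q1 = 0 := mz hb (by linear_combination h.u1_yy / 2)
  subst q1z
  have e1 : t2 = 2 * c * q5 := by linear_combination -h.u1_zz
  have e2 : t1 = 2 * b * r1 := by linear_combination -h.u2_yy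
  have e3 : 3 * t3 = 2 * c * r5 := by linear_combination -h.u2_zz
  have e4 : t1 = b * q2 + c * q4 := by linear_combination -h.u1_yz / 2
  have e5 : q4 * t1 = 0 := by linear_combination h.w1_yyy
  have t1z : t1 = 0 := by
    by_contra ht
    have q4z : q4 = 0 := (mul_eq_zero.mp e5).resolve_right ht
    subst q4z
    have q5z : q5 = 0 := mz ht (by linear_combination h.w1_yyz)
    subst q5z
    have t2z : t2 = 0 := by linear_combination e1
    subst t2z
    apply ht
    apply sz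
    linear_combination t1 * e4 + b / 2 * h.w1_yzz
  subst t1z
  have e6 : q4 * t2 = 0 := by linear_combination h.w1_yyz / 2
  have e7 : 3 * c * q4 * t3 + t2 ^ 2 = 0 := by linear_combination c * h.w1_yzz + t2 * e1
  have t2z : t2 = 0 := by
    rcases mul_eq_zero.mp e6 with h6 | h6
    · subst h6
      exact sz (by linear_combination e7)
    · exact h6
  subst t2z
  have e8 : r5 * t3 = 0 := by linear_combination h.w2_zzz / 3
  have t3z : t3 = 0 := by
    apply sz
    linear_combination t3 / 3 * e3 + 2 / 3 * c * e8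
  subst t3z
  exact hn fun x y z => by ring

/-- case D13 -/
theorem d13 {b c t1 t2 t3 : ℝ} (hb : b ≠ 0) (hc : c ≠ 0)
    (hg : Good (S (1 / 3) b c 0 0 0 (1 / 27) 0 0 (b / 3) (c / 3) 0 0 t1 t2 t3)) :
    Cl (S (1 / 3) b c 0 0 0 (1 / 27) 0 0 (b / 3) (c / 3) 0 0 t1 t2 t3) := by
  obtain ⟨⟨p0, p1, p2, q0, q1, q2, r0, r1, r2, p3, p4, p5, q3, q4, q5, r3, r4, r5, h⟩, hn⟩ :=
    good_ce hg
  have q1z : q1 = 0 := mz hb (by linear_combination h.u1_yy / 2)
  subst q1z
  have e1 : t2 = 2 * c * q5 := by linear_combination -h.u1_zz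
  have e2 : t1 = 2 * b * r1 := by linear_combination -h.u2_yy
  have e3 : 3 * t3 = 2 * c * r5 := by linear_combination -h.u2_zz
  have e4 : t1 = b * q2 + c * q4 := by linear_combination -h.u1_yz / 2
  have e4' : t2 = b * r2 + c * r4 := by linear_combination -h.u2_yz / 2
  have e5 : q4 * t1 = -(2 / 3) * b ^ 2 := by linear_combination h.w1_yyy
  have ht1 : t1 ≠ 0 := by
    intro h0
    subst h0
    exact hb (sz (by linear_combination 3 / 2 * e5))
  have r4z : r4 = 0 := mz ht1 (by linear_combination h.w2_yyy)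
  subst r4z
  by_cases ht2 : t2 = 0
  · subst ht2
    have e6 : b ^ 3 * t3 = b ^ 2 * c * t1 + t1 ^ 3 := by
      linear_combination -(b * t1 / 2) * h.w1_yzz + (3 / 2 * b * t3 - c * t1) * e5 - t1 ^ 2 * e4
    refine factor_cl hg (1 / 3) 0 (t1 / b) (Or.inr ?_) fun x y z => ?_
    · exact div_ne_zero ht1 hb
    · have e7 : t3 = c * (t1 / b) + (t1 / b) ^ 3 := by
        field_simp
        linear_combination e6
      have e8 : t1 = t1 / b * b := by field_simp
      set κ := t1 / b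
      rw [e8, e7]
      ring
  · have e6 : 4 * c * q4 = -t1 := by
      have : t2 * (4 * c * q4 + t1) = 0 := by
        linear_combination 2 * c * h.w1_yyz + t1 * e1
      have := mz ht2 this
      linear_combination this
    have e7 : 3 * t1 ^ 2 = 8 * b ^ 2 * c := by
      linear_combination 3 * t1 * e6 - 12 * c * e5
    have e8 : 6 * b * t3 = -5 * c * t1 := by
      have h1 : t2 * (5 * t1 * c + 6 * b * t3) = 0 := by
        linear_combination 2 * b * c * h.w2_yzz + (c * t2) * e2 + 4 * c * t1 * e4'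
          + 2 * b * t2 * e3
      have := mz ht2 h1
      linear_combination this
    have e10 : 27 * t3 ^ 2 = 50 * c ^ 3 := by
      refine mul_left_cancel₀ (pow_ne_zero 2 hb) ?_
      linear_combination (3 / 4 * (6 * b * t3 - 5 * c * t1)) * e8 + 25 / 4 * c ^ 2 * e7
    have e9 : t2 ^ 2 = -9 * b * c ^ 2 := by
      refine mul_left_cancel₀ hc ?_
      linear_combination b * c * h.w2_zzz + c * t2 * e4' + 3 / 2 * b * t3 * e3 - b / 6 * e10
    refine factor_cl hg (1 / 3) (t2 / (3 * c)) (-t1 / (2 * b)) (Or.inl ?_) fun x y z => ?_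
    · exact div_ne_zero ht2 (mul_ne_zero three_ne_zero hc)
    · have hμ : (t2 / (3 * c)) ^ 2 = -b := by
        rw [div_pow, div_eq_iff (pow_ne_zero 2 (mul_ne_zero three_ne_zero hc))]
        linear_combination e9
      have hκ : (-t1 / (2 * b)) ^ 2 = 2 / 3 * c := by
        rw [div_pow, div_eq_iff (pow_ne_zero 2 (mul_ne_zero two_ne_zero hb))]
        linear_combination e7 / 3
      have h2 : t2 = 3 * c * (t2 / (3 * c)) := by field_simp
      have h1 : t1 = -2 * b * (-t1 / (2 * b)) := by field_simp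
      have h3 : t3 = 5 / 3 * c * (-t1 / (2 * b)) := by
        field_simp
        linear_combination e8
      set μ := t2 / (3 * c)
      set κ := -t1 / (2 * b)
      rw [h1, h2, h3]
      linear_combination (-(μ * y ^ 3 + 3 * κ * y ^ 2 * z)) * hμ - (3 * μ * y * z ^ 2 + κ * z ^ 3) * hκ

/-- the normal form `nfT` -/
theorem t3_cl {s : ℝ} (hs : s ≠ 0) : Cl (S 0 0 0 0 0 1 0 0 0 0 0 0 0 0 0 s) := by
  obtain ⟨m, hm⟩ : ∃ m : ℝ, m ^ 3 = s := by
    rcases le_total 0 s with h | h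
    · refine ⟨s ^ ((1 : ℝ) / 3), ?_⟩
      rw [← Real.rpow_natCast, ← Real.rpow_mul h]
      norm_num
    · refine ⟨-(-s) ^ ((1 : ℝ) / 3), ?_⟩
      have h1 : ((-s) ^ ((1 : ℝ) / 3)) ^ 3 = -s := by
        rw [← Real.rpow_natCast, ← Real.rpow_mul (by linarith)]
        norm_num
      linear_combination -h1
  have hm0 : m ≠ 0 := by
    rintro rfl
    apply hs
    rw [← hm]
    norm_num
  refine ⟨7, linEquiv_of_eval !![1, 0, 0; 0, 0, m; 0, 1 / m, 0] ?_ ?_⟩
  · rw [Matrix.det_fin_three]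
    simp [hm0]
  · intro i v
    have hA : (!![1, 0, 0; 0, 0, m; 0, 1 / m, 0] : Matrix (Fin 3) (Fin 3) ℝ) *ᵥ v =
        ![v 0, m * v 2, 1 / m * v 1] := by
      funext j
      fin_cases j <;> simp [Matrix.mulVec, dotProduct, Fin.sum_univ_three]
    rw [hA]
    fin_cases i
    · simp [nf, nfT]
    · simp [nf, nfT, ev_qd]
      field_simp
    · simp [nf, nfT, ev_cb]
      rw [← hm]
      ring

theorem t0_cl {s : ℝ} (hs : s ≠ 0) : Cl (S 0 0 0 0 0 1 0 0 0 0 0 0 s 0 0 0) := by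
  refine Cl.of_linEquiv ?_ (t3_cl hs)
  refine linEquiv_of_eval !![1, 0, 0; 0, 0, 1; 0, 1, 0] ?_ ?_
  · rw [Matrix.det_fin_three]
    simp
  · intro i v
    have hA : (!![1, 0, 0; 0, 0, 1; 0, 1, 0] : Matrix (Fin 3) (Fin 3) ℝ) *ᵥ v =
        ![v 0, v 2, v 1] := by
      funext j
      fin_cases j <;> simp [Matrix.mulVec, dotProduct, Fin.sum_univ_three]
    rw [hA]
    fin_cases i
    · simp
    · simp [ev_qd]
      ring
    · simp [ev_cb]

/-- case N0 -/
theorem n0 {g3 t0 t1 t2 t3 : ℝ}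
    (hg : Good (S 0 0 0 0 0 1 0 0 0 0 g3 0 t0 t1 t2 t3)) :
    Cl (S 0 0 0 0 0 1 0 0 0 0 g3 0 t0 t1 t2 t3) := by
  obtain ⟨⟨p0, p1, p2, q0, q1, q2, r0, r1, r2, p3, p4, p5, q3, q4, q5, r3, r4, r5, h⟩, hn⟩ :=
    good_ce hg
  have q0z : q0 = 0 := by linear_combination h.u1_xz
  have q3z : q3 = 0 := by linear_combination h.u1_xy
  have r3z : r3 = 0 := by linear_combination h.u2_xy
  have r0z : r0 = 2 * g3 := by linear_combination h.u2_xz
  have q4z : q4 = 3 * t0 := by linear_combination h.u1_yy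
  have r4z : t1 = r4 := by linear_combination -h.u2_yy
  have q2z : t2 = q2 := by linear_combination -h.u1_zz
  have p0z : p0 = 0 := by linear_combination h.u0_xz
  have p3z : p3 = 0 := by linear_combination h.u0_xy
  have p4z : p4 = 0 := by linear_combination h.u0_yy
  have p2z : g3 = p2 := by linear_combination -h.u0_zz
  subst q0z q3z r3z r0z q4z r4z q2z p0z p3z p4z p2z
  have hp : p1 + p5 = -1 := by linear_combination h.u0_yz
  by_cases hg3 : g3 = 0
  · subst hg3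
    have a0 : t0 * (1 + 3 * p1) = 0 := by linear_combination h.w0_yyy
    have a1 : t1 * p1 = 0 := by linear_combination h.w0_yyz - t1 * hp
    have a2 : t2 * p5 = 0 := by linear_combination h.w0_yzz - t2 * hp
    have a3 : t3 * (1 + 3 * p5) = 0 := by linear_combination h.w0_zzz
    by_cases ht3 : t3 = 0
    · subst ht3
      have t2z : t2 = 0 := sz (by linear_combination h.w1_zzz)
      subst t2z
      by_cases ht0 : t0 = 0
      · exfalso
        subst ht0
        have t1z : t1 = 0 := sz (by linear_combination h.w2_yyy)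
        subst t1z
        exact hn fun x y z => by ring
      · have b1 := mz ht0 a0
        have t1z : t1 = 0 := by linear_combination t1 * b1 - 3 * a1
        subst t1z
        exact t0_cl ht0
    · have b3 := mz ht3 a3
      have t2z : t2 = 0 := by linear_combination t2 * b3 - 3 * a2
      have t1z : t1 = 0 := by linear_combination -3 / 2 * a1 + 3 / 2 * t1 * hp - 1 / 2 * t1 * b3
      have t0z : t0 = 0 := by linear_combination -a0 + 3 * t0 * hp - t0 * b3
      subst t2z t1z t0z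
      exact t3_cl ht3
  · have t0z : t0 = 0 := mz hg3 (by linear_combination h.w1_xyz / 6)
    have t1z : t1 = 0 := mz hg3 (by linear_combination h.w2_xyz / 6)
    have q5z : q5 = 0 := mz hg3 (by linear_combination h.w1_xzz / 2)
    have p5z : p5 = 0 := mz hg3 (by linear_combination h.w0_xzz / 2)
    subst t0z t1z q5z p5z
    have hq : g3 = -t2 ^ 2 := by linear_combination h.w1_zzz
    have ht3 : t3 = t2 ^ 3 := by linear_combination h.w0_zzz - t2 * hq
    have hq2 : t2 ≠ 0 := by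
      rintro rfl
      apply hg3
      rw [hq]
      norm_num
    refine factor_cl hg 0 0 t2 (Or.inr hq2) fun x y z => ?_
    rw [hq, ht3]
    ring

/-- case S2 -/
theorem s2 {a b d e k0 ky kz g1 g3 g2 t0 t1 t2 t3 : ℝ}
    (hg : Good (S a b 0 d e 0 k0 ky kz g1 g3 g2 t0 t1 t2 t3)) : False := by
  obtain ⟨⟨p0, p1, p2, q0, q1, q2, r0, r1, r2, p3, p4, p5, q3, q4, q5, r3, r4, r5, h⟩, hn⟩ :=
    good_ce hg
  have t2z : t2 = 0 := by linear_combination -h.u1_zz
  have t3z : t3 = 0 := by linear_combination -h.u2_zz / 3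
  have g3z : g3 = e ^ 2 := by linear_combination -h.u0_zz
  subst t2z t3z g3z
  have ez : e = 0 := by
    have h3 : e ^ 3 = 0 := by
      linear_combination h.w2_xzz / 3 - 2 / 3 * e * h.u2_xz + r2 / 3 * h.u0_yz - p2 / 3 * h.u2_yz
    exact pow_eq_zero_iff (three_ne_zero) |>.mp h3
  subst ez
  by_cases hb : b = 0
  · subst hb
    have t0z : t0 = 0 := by linear_combination -h.u1_yy / 3
    have t1z : t1 = 0 := by linear_combination -h.u2_yy
    have g1z : g1 = d ^ 2 := by linear_combination -h.u0_yy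
    have g2z : g2 = 0 := by linear_combination -h.u0_yz
    subst t0z t1z g1z g2z
    have dz : d = 0 := by
      have h3 : d ^ 3 = 0 := by
        linear_combination h.w1_xyy / 3 - 2 / 3 * d * h.u1_xy
      exact pow_eq_zero_iff (three_ne_zero) |>.mp h3
    subst dz
    exact hn fun x y z => by ring
  · have r2z : r2 = 0 := mz hb (by linear_combination h.u2_yz / 2)
    subst r2z
    have t1z : t1 = b * q2 := by linear_combination -h.u1_yz / 2
    subst t1z
    have q2z : q2 = 0 := by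
      have h2 : b * q2 ^ 2 = 0 := by linear_combination h.w1_yzz / 2
      exact sz (mz hb h2)
    subst q2z
    have g2z : g2 = 0 := by linear_combination -h.u1_xz
    have r1z : r1 = 0 := mz hb (by linear_combination h.u2_yy / 2)
    subst g2z r1z
    have r0z : r0 = 0 := mz hb (by linear_combination h.u2_xy / 2)
    subst r0z
    have kzz : kz = 0 := by linear_combination -h.u2_xx
    subst kzz
    exact hn fun x y z => by ring

/-- equations in the diagonal case -/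
theorem diag_eqs {a b c k0 ky kz g1 g3 g2 t0 t1 t2 t3 : ℝ}
    (hg : Good (S a b c 0 0 0 k0 ky kz g1 g3 g2 t0 t1 t2 t3)) :
    ky = 0 ∧ kz = 0 ∧ 3 * k0 = 4 * a ^ 2 - a ∧ k0 * (3 * a - 1) = 0 ∧
    6 * b ^ 2 * c * k0 + 2 * c * g1 * (g1 - 2 * a * b) + b * g2 ^ 2 / 2 = 0 ∧
    g2 * (c * (g1 - 2 * a * b) + b * g3) = 0 ∧
    6 * b * c ^ 2 * k0 + c * g2 ^ 2 / 2 + 2 * b * g3 * (g3 - 2 * a * c) = 0 := by
  obtain ⟨⟨p0, p1, p2, q0, q1, q2, r0, r1, r2, p3, p4, p5, q3, q4, q5, r3, r4, r5, h⟩, hn⟩ :=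
    good_ce hg
  have kyz : ky = 0 := by linear_combination -h.u1_xx
  have kzz : kz = 0 := by linear_combination -h.u2_xx
  subst kyz kzz
  refine ⟨rfl, rfl, by linear_combination -h.u0_xx, by linear_combination h.w0_xxx / 2, ?_, ?_, ?_⟩
  · linear_combination b * c * h.w1_xxy - c * g1 * h.u1_xy - b * g2 / 2 * h.u1_xz
  · linear_combination b * c * h.w1_xxz - c * g2 / 2 * h.u1_xy - b * g3 * h.u1_xz
  · linear_combination b * c * h.w2_xxz - c * g2 / 2 * h.u2_xy - b * g3 * h.u2_xz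

/-- linear change of the last two coordinates -/
theorem blockE (a b c d e f k0 ky kz g1 g3 g2 t0 t1 t2 t3 p1 p2 m1 m2 : ℝ)
    (hdet : p1 * m2 - m1 * p2 ≠ 0) :
    LinEquiv (S a b c d e f k0 ky kz g1 g3 g2 t0 t1 t2 t3)
      (S a (b * p1 ^ 2 + c * p2 ^ 2 + f * (p1 * p2)) (b * m1 ^ 2 + c * m2 ^ 2 + f * (m1 * m2))
        (d * p1 + e * p2) (d * m1 + e * m2)
        (m1 * (2 * b * p1 + f * p2) + m2 * (f * p1 + 2 * c * p2))
        k0 (ky * p1 + kz * p2) (ky * m1 + kz * m2)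
        (g1 * p1 ^ 2 + g3 * p2 ^ 2 + g2 * (p1 * p2)) (g1 * m1 ^ 2 + g3 * m2 ^ 2 + g2 * (m1 * m2))
        (m1 * (2 * g1 * p1 + g2 * p2) + m2 * (g2 * p1 + 2 * g3 * p2))
        (t0 * p1 ^ 3 + t1 * (p1 ^ 2 * p2) + t2 * (p1 * p2 ^ 2) + t3 * p2 ^ 3)
        (3 * t0 * p1 ^ 2 * m1 + t1 * (p1 ^ 2 * m2 + 2 * p1 * m1 * p2)
          + t2 * (m1 * p2 ^ 2 + 2 * p1 * p2 * m2) + 3 * t3 * p2 ^ 2 * m2)
        (3 * t0 * p1 * m1 ^ 2 + t1 * (m1 ^ 2 * p2 + 2 * p1 * m1 * m2)
          + t2 * (p1 * m2 ^ 2 + 2 * m1 * m2 * p2) + 3 * t3 * p2 * m2 ^ 2)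
        (t0 * m1 ^ 3 + t1 * (m1 ^ 2 * m2) + t2 * (m1 * m2 ^ 2) + t3 * m2 ^ 3)) := by
  refine linEquiv_of_eval !![1, 0, 0; 0, p1, m1; 0, p2, m2] ?_ ?_
  · rw [Matrix.det_fin_three]
    simpa using hdet
  · intro i v
    have hA : (!![1, 0, 0; 0, p1, m1; 0, p2, m2] : Matrix (Fin 3) (Fin 3) ℝ) *ᵥ v =
        ![v 0, p1 * v 1 + m1 * v 2, p2 * v 1 + m2 * v 2] := by
      funext j
      fin_cases j <;> simp [Matrix.mulVec, dotProduct, Fin.sum_univ_three]
    rw [hA]
    fin_cases i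
    · simp
    · simp [ev_qd]
      ring
    · simp [ev_cb]
      ring

/-- adapted coordinates -/
theorem adapt {b c f g1 g3 g2 : ℝ} (a k0 t0 t1 t2 t3 : ℝ) (hΔ : f ^ 2 - 4 * b * c ≠ 0)
    (p1 p2 lam : ℝ) (hp : ¬ (p1 = 0 ∧ p2 = 0))
    (hk1 : 2 * g1 * p1 + g2 * p2 = lam * (2 * b * p1 + f * p2))
    (hk2 : g2 * p1 + 2 * g3 * p2 = lam * (f * p1 + 2 * c * p2)) :
    ∃ b' c' f' g3' t1' t2' t3' : ℝ,
      LinEquiv (S a b c 0 0 f k0 0 0 g1 g3 g2 t0 t1 t2 t3)
        (S a b' c' 0 0 f' k0 0 0 (lam * b') g3' (lam * f')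
          (t0 * p1 ^ 3 + t1 * (p1 ^ 2 * p2) + t2 * (p1 * p2 ^ 2) + t3 * p2 ^ 3) t1' t2' t3') ∧
      (g1 = lam * b → g3 = lam * c → g2 = lam * f → g3' = lam * c') ∧
      ((b' ≠ 0 ∧ c' ≠ 0 ∧ f' = 0) ∨ (b' = 0 ∧ c' = 0 ∧ f' = 1)) := by
  have key : ∀ m1 m2 : ℝ, p1 * m2 - m1 * p2 ≠ 0 →
      ((b * p1 ^ 2 + c * p2 ^ 2 + f * (p1 * p2) ≠ 0 ∧ b * m1 ^ 2 + c * m2 ^ 2 + f * (m1 * m2) ≠ 0 ∧
        m1 * (2 * b * p1 + f * p2) + m2 * (f * p1 + 2 * c * p2) = 0) ∨
      (b * p1 ^ 2 + c * p2 ^ 2 + f * (p1 * p2) = 0 ∧ b * m1 ^ 2 + c * m2 ^ 2 + f * (m1 * m2) = 0 ∧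
        m1 * (2 * b * p1 + f * p2) + m2 * (f * p1 + 2 * c * p2) = 1)) →
      ∃ b' c' f' g3' t1' t2' t3' : ℝ,
      LinEquiv (S a b c 0 0 f k0 0 0 g1 g3 g2 t0 t1 t2 t3)
        (S a b' c' 0 0 f' k0 0 0 (lam * b') g3' (lam * f')
          (t0 * p1 ^ 3 + t1 * (p1 ^ 2 * p2) + t2 * (p1 * p2 ^ 2) + t3 * p2 ^ 3) t1' t2' t3') ∧
      (g1 = lam * b → g3 = lam * c → g2 = lam * f → g3' = lam * c') ∧
      ((b' ≠ 0 ∧ c' ≠ 0 ∧ f' = 0) ∨ (b' = 0 ∧ c' = 0 ∧ f' = 1)) := by
    intro m1 m2 hdet hm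
    have hE := blockE a b c 0 0 f k0 0 0 g1 g3 g2 t0 t1 t2 t3 p1 p2 m1 m2 hdet
    have e1 : g1 * p1 ^ 2 + g3 * p2 ^ 2 + g2 * (p1 * p2) =
        lam * (b * p1 ^ 2 + c * p2 ^ 2 + f * (p1 * p2)) := by
      linear_combination p1 / 2 * hk1 + p2 / 2 * hk2
    have e2 : m1 * (2 * g1 * p1 + g2 * p2) + m2 * (g2 * p1 + 2 * g3 * p2) =
        lam * (m1 * (2 * b * p1 + f * p2) + m2 * (f * p1 + 2 * c * p2)) := by
      linear_combination m1 * hk1 + m2 * hk2
    rw [e1, e2] at hE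
    simp only [zero_mul, add_zero] at hE
    refine ⟨_, _, _, _, _, _, _, hE, ?_, hm⟩
    rintro h1 h2 h3
    rw [h1, h2, h3]
    ring
  by_cases hq : b * p1 ^ 2 + c * p2 ^ 2 + f * (p1 * p2) = 0
  · -- isotropic vector
    set x1 := 2 * b * p1 + f * p2 with hx1
    set x2 := f * p1 + 2 * c * p2 with hx2
    have hxp : x1 * p1 + x2 * p2 = 0 := by rw [hx1, hx2]; linear_combination 2 * hq
    have hx : x1 ^ 2 + x2 ^ 2 ≠ 0 := by
      intro h0
      have h1 : x1 = 0 := by nlinarith [sq_nonneg x1, sq_nonneg x2]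
      have h2 : x2 = 0 := by nlinarith [sq_nonneg x1, sq_nonneg x2]
      apply hp
      constructor
      · refine mz hΔ ?_
        linear_combination f * h2 - 2 * c * h1 + f * (-hx2) + 2 * c * hx1 - 0
      · refine mz hΔ ?_
        linear_combination f * h1 - 2 * b * h2 - f * hx1 + 2 * b * hx2
    set n1 := x1 / (x1 ^ 2 + x2 ^ 2) with hn1
    set n2 := x2 / (x1 ^ 2 + x2 ^ 2) with hn2
    have hxn : x1 * n1 + x2 * n2 = 1 := by
      rw [hn1, hn2]
      field_simp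
    set s := b * n1 ^ 2 + c * n2 ^ 2 + f * (n1 * n2) with hs
    refine key (n1 - s * p1) (n2 - s * p2) ?_ (Or.inr ⟨hq, ?_, ?_⟩)
    · intro h0
      apply hp
      constructor
      · linear_combination -p1 * hxn + x2 * h0 + n1 * hxp
      · linear_combination -p2 * hxn - x1 * h0 + n2 * hxp
    · linear_combination -hs + s ^ 2 * hq - s * hxn - s * n1 * hx1 - s * n2 * hx2
    · linear_combination hxn - s * hxp - (n1 - s * p1) * hx1 - (n2 - s * p2) * hx2
  · refine key (-(f * p1 + 2 * c * p2)) (2 * b * p1 + f * p2) ?_ (Or.inl ⟨hq, ?_, ?_⟩)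
    · intro h0
      apply hq
      linear_combination h0 / 2
    · intro h0
      have : (f ^ 2 - 4 * b * c) * (b * p1 ^ 2 + c * p2 ^ 2 + f * (p1 * p2)) = 0 := by
        linear_combination -h0
      exact hq (mz hΔ this)
    · ring

end Pool.Agent.Helper36.Nij3
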