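import Mathlib
import Pool.Agent.Helper36.Nij3.Cases

/-!
# Every good collection is equivalent to one of the normal forms
-/

open MvPolynomial Matrix

set_option linter.unusedSimpArgs false

namespace Pool.Agent.Helper36.Nij3

open Pool.Agent.Helper28.Nij

/-- a binary cubic form has a nontrivial real zero -/
theorem cubic_root (t0 t1 t2 t3 : ℝ) : ∃ p1 p2 : ℝ, ¬ (p1 = 0 ∧ p2 = 0) ∧
    t0 * p1 ^ 3 + t1 * (p1 ^ 2 * p2) + t2 * (p1 * p2 ^ 2) + t3 * p2 ^ 3 = 0 := by
  by_cases h0 : t0 = 0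
  · refine ⟨1, 0, by simp, ?_⟩
    rw [h0]
    ring
  · suffices h : ∃ s : ℝ, s ^ 3 + t1 / t0 * s ^ 2 + t2 / t0 * s + t3 / t0 = 0 by
      obtain ⟨s, hs⟩ := h
      refine ⟨s, 1, by simp, ?_⟩
      field_simp at hs
      linear_combination hs
    set a := t1 / t0
    set b := t2 / t0
    set c := t3 / t0
    set M := 1 + |a| + |b| + |c| with hM
    have ha := abs_nonneg a
    have hb := abs_nonneg b
    have hc := abs_nonneg c
    have hM1 : 1 ≤ M := by rw [hM]; linarith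
    have key : ∀ s : ℝ, |s| = M → |a * s ^ 2 + b * s + c| ≤ M ^ 3 := by
      intro s hs
      have h1 : |a * s ^ 2 + b * s + c| ≤ |a| * M ^ 2 + |b| * M + |c| := by
        calc |a * s ^ 2 + b * s + c| ≤ |a * s ^ 2| + |b * s| + |c| := abs_add_three _ _ _
          _ = |a| * M ^ 2 + |b| * M + |c| := by
            rw [abs_mul, abs_mul, abs_pow, hs]
      have h2 : |b| * M ≤ |b| * M ^ 2 := by
        apply mul_le_mul_of_nonneg_left _ hb
        nlinarith
      have h3 : |c| ≤ |c| * M ^ 2 := by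
        have : 1 ≤ M ^ 2 := by nlinarith
        nlinarith
      have h4 : |a| * M ^ 2 + |b| * M ^ 2 + |c| * M ^ 2 ≤ M ^ 3 := by
        have : M ^ 3 = M ^ 2 + |a| * M ^ 2 + |b| * M ^ 2 + |c| * M ^ 2 := by
          calc M ^ 3 = M * M ^ 2 := by ring
            _ = (1 + |a| + |b| + |c|) * M ^ 2 := by rw [← hM]
            _ = _ := by ring
        have h5 : 0 ≤ M ^ 2 := sq_nonneg M
        linarith
      linarith
    have hcont : Continuous fun s : ℝ => s ^ 3 + a * s ^ 2 + b * s + c := by fun_prop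
    have hpos : 0 ≤ M ^ 3 + a * M ^ 2 + b * M + c := by
      have := abs_le.mp (key M (abs_of_nonneg (by linarith)))
      linarith [this.1]
    have hneg : (-M) ^ 3 + a * (-M) ^ 2 + b * (-M) + c ≤ 0 := by
      have := abs_le.mp (key (-M) (by rw [abs_neg]; exact abs_of_nonneg (by linarith)))
      have h6 : (-M) ^ 3 = -M ^ 3 := by ring
      linarith [this.2]
    obtain ⟨s, -, hs⟩ := intermediate_value_Icc (show -M ≤ M by linarith) hcont.continuousOn
      (show (0 : ℝ) ∈ Set.Icc _ _ from ⟨hneg, hpos⟩)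
    exact ⟨s, hs⟩

/-- case Z13 -/
theorem z13 {b c f t0 t1 t2 t3 : ℝ} (hΔ : f ^ 2 - 4 * b * c ≠ 0)
    (hg : Good (S (1 / 3) b c 0 0 f (1 / 27) 0 0 (1 / 3 * b) (1 / 3 * c) (1 / 3 * f) t0 t1 t2 t3)) :
    Cl (S (1 / 3) b c 0 0 f (1 / 27) 0 0 (1 / 3 * b) (1 / 3 * c) (1 / 3 * f) t0 t1 t2 t3) := by
  obtain ⟨p1, p2, hp, hT⟩ := cubic_root t0 t1 t2 t3
  obtain ⟨b', c', f', g3', t1', t2', t3', hE, h3, hm⟩ := adapt (g1 := 1 / 3 * b) (g3 := 1 / 3 * c)
    (g2 := 1 / 3 * f) (1 / 3) (1 / 27) t0 t1 t2 t3 hΔ p1 p2 (1 / 3) hp (by ring) (by ring)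
  have h3' := h3 rfl rfl rfl
  subst h3'
  rw [hT] at hE
  have hg' := hg.linEquiv hE
  refine Cl.of_linEquiv hE ?_
  rcases hm with ⟨hb, hc, rfl⟩ | ⟨rfl, rfl, rfl⟩
  · rw [mul_zero, one_div_mul_eq_div, one_div_mul_eq_div] at hg' ⊢
    exact d13 hb hc hg'
  · rw [mul_zero, mul_one] at hg'
    exact (n13 (Or.inr rfl) hg').elim

/-- case Z0 -/
theorem z0 {b c f t0 t1 t2 t3 : ℝ} (hΔ : f ^ 2 - 4 * b * c ≠ 0)
    (hg : Good (S 0 b c 0 0 f 0 0 0 0 0 0 t0 t1 t2 t3)) :
    Cl (S 0 b c 0 0 f 0 0 0 0 0 0 t0 t1 t2 t3) := by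
  obtain ⟨p1, p2, hp, hT⟩ := cubic_root t0 t1 t2 t3
  obtain ⟨b', c', f', g3', t1', t2', t3', hE, h3, hm⟩ := adapt (g1 := 0) (g3 := 0)
    (g2 := 0) 0 0 t0 t1 t2 t3 hΔ p1 p2 0 hp (by ring) (by ring)
  have h3' := h3 (by ring) (by ring) (by ring)
  subst h3'
  rw [hT] at hE
  simp only [zero_mul] at hE
  have hg' := hg.linEquiv hE
  refine Cl.of_linEquiv hE ?_
  rcases hm with ⟨hb, hc, rfl⟩ | ⟨rfl, rfl, rfl⟩
  · exact (d0 hb hg').elim
  · exact n0 hg'

/-- `a = 1/3` -/
theorem a13 {b c g1 g3 g2 t0 t1 t2 t3 : ℝ} (hb : b ≠ 0) (hc : c ≠ 0)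
    (hg : Good (S (1 / 3) b c 0 0 0 (1 / 27) 0 0 g1 g3 g2 t0 t1 t2 t3)) :
    Cl (S (1 / 3) b c 0 0 0 (1 / 27) 0 0 g1 g3 g2 t0 t1 t2 t3) := by
  obtain ⟨-, -, -, -, e1, e2, e3⟩ := diag_eqs hg
  have hΔ : (0 : ℝ) ^ 2 - 4 * b * c ≠ 0 := by
    intro h
    exact mul_ne_zero hb hc (by linear_combination -h / 4)
  by_cases hg2 : g2 = 0
  · subst hg2
    have h1 : g1 = 1 / 3 * b := by
      have : (g1 - b / 3) ^ 2 = 0 := mz hc (by linear_combination e1 / 2)
      linear_combination sz this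
    have h3 : g3 = 1 / 3 * c := by
      have : (g3 - c / 3) ^ 2 = 0 := mz hb (by linear_combination e3 / 2)
      linear_combination sz this
    subst h1 h3
    have h0 : (0 : ℝ) = 1 / 3 * 0 := by ring
    have := z13 (f := 0) hΔ (by rw [← h0]; exact hg)
    rwa [← h0] at this
  · have e4 : c * (g1 - 2 * (1 / 3) * b) + b * g3 = 0 := mz hg2 e2
    obtain ⟨b', c', f', g3', t1', t2', t3', hE, -, hm⟩ := adapt (f := 0) (g1 := g1) (g3 := g3)
      (g2 := g2) (1 / 3) (1 / 27) t0 t1 t2 t3 hΔ g2 (-2 * (g1 - b / 3)) (1 / 3)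
      (fun h => hg2 h.1) (by ring) (by
        refine mul_left_cancel₀ hb ?_
        linear_combination -4 * (g1 - b / 3) * e4 + 2 * e1)
    have hg' := hg.linEquiv hE
    refine Cl.of_linEquiv hE ?_
    rcases hm with ⟨hb', hc', rfl⟩ | ⟨rfl, rfl, rfl⟩
    · obtain ⟨-, -, -, -, f1, f2, f3⟩ := diag_eqs hg'
      have h3 : g3' = 1 / 3 * c' := by
        have : (g3' - c' / 3) ^ 2 = 0 := mz hb' (by linear_combination f3 / 2)
        linear_combination sz this
      subst h3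
      refine z13 ?_ hg'
      intro h
      exact mul_ne_zero hb' hc' (by linear_combination -h / 4)
    · rw [mul_zero, mul_one] at hg' ⊢
      by_cases h3 : g3' = 0
      · subst h3
        have := z13 (b := 0) (c := 0) (f := 1) (by norm_num) (by
          rw [mul_zero, mul_one]; exact hg')
        rwa [mul_zero, mul_one] at this
      · exact (n13 (Or.inl h3) hg').elim

/-- `a = 1/4` -/
theorem a14 {b c g1 g3 g2 t0 t1 t2 t3 : ℝ} (hb : b ≠ 0) (hc : c ≠ 0)
    (hg : Good (S (1 / 4) b c 0 0 0 0 0 0 g1 g3 g2 t0 t1 t2 t3)) :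
    Cl (S (1 / 4) b c 0 0 0 0 0 0 g1 g3 g2 t0 t1 t2 t3) := by
  obtain ⟨-, -, -, -, e1, e2, e3⟩ := diag_eqs hg
  have hΔ : (0 : ℝ) ^ 2 - 4 * b * c ≠ 0 := by
    intro h
    exact mul_ne_zero hb hc (by linear_combination -h / 4)
  -- the kernel vector
  have hker : ∀ p1 p2 : ℝ, ¬ (p1 = 0 ∧ p2 = 0) → 2 * g1 * p1 + g2 * p2 = 0 →
      g2 * p1 + 2 * g3 * p2 = 0 → Cl (S (1 / 4) b c 0 0 0 0 0 0 g1 g3 g2 t0 t1 t2 t3) := by
    intro p1 p2 hp h1 h2
    obtain ⟨b', c', f', g3', t1', t2', t3', hE, -, hm⟩ := adapt (f := 0) (g1 := g1) (g3 := g3)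
      (g2 := g2) (1 / 4) 0 t0 t1 t2 t3 hΔ p1 p2 0 hp (by linear_combination h1)
      (by linear_combination h2)
    simp only [zero_mul] at hE
    have hg' := hg.linEquiv hE
    refine Cl.of_linEquiv hE ?_
    rcases hm with ⟨hb', hc', rfl⟩ | ⟨rfl, rfl, rfl⟩
    · exact d14 hb' hc' hg'
    · exact (n14 hg').elim
  by_cases hg2 : g2 = 0
  · subst hg2
    have h1 : g1 * (g1 - b / 2) = 0 := mz hc (by linear_combination e1 / 2)
    have h3 : g3 * (g3 - c / 2) = 0 := mz hb (by linear_combination e3 / 2)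
    rcases mul_eq_zero.mp h1 with h1 | h1
    · exact hker 1 0 (by simp) (by rw [h1]; ring) (by ring)
    · rcases mul_eq_zero.mp h3 with h3 | h3
      · exact hker 0 1 (by simp) (by ring) (by rw [h3]; ring)
      · have h1' : g1 = b / 2 := by linear_combination h1
        have h3' : g3 = c / 2 := by linear_combination h3
        subst h1' h3'
        exact (h14 hb hc hg).elim
  · have e4 : c * (g1 - 2 * (1 / 4) * b) + b * g3 = 0 := mz hg2 e2
    refine hker g2 (-2 * g1) (fun h => hg2 h.1) (by ring) ?_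
    refine mz hb ?_
    linear_combination -4 * g1 * e4 + 2 * e1

/-- `a = 0` -/
theorem a0 {b c g1 g3 g2 t0 t1 t2 t3 : ℝ} (hb : b ≠ 0) (hc : c ≠ 0)
    (hg : Good (S 0 b c 0 0 0 0 0 0 g1 g3 g2 t0 t1 t2 t3)) :
    Cl (S 0 b c 0 0 0 0 0 0 g1 g3 g2 t0 t1 t2 t3) := by
  obtain ⟨-, -, -, -, e1, e2, e3⟩ := diag_eqs hg
  have hΔ : (0 : ℝ) ^ 2 - 4 * b * c ≠ 0 := by
    intro h
    exact mul_ne_zero hb hc (by linear_combination -h / 4)
  by_cases hg2 : g2 = 0
  · subst hg2
    have h1 : g1 = 0 := sz (mz hc (by linear_combination e1 / 2))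
    have h3 : g3 = 0 := sz (mz hb (by linear_combination e3 / 2))
    subst h1 h3
    exact z0 hΔ hg
  · have e4 : c * (g1 - 2 * 0 * b) + b * g3 = 0 := mz hg2 e2
    obtain ⟨b', c', f', g3', t1', t2', t3', hE, -, hm⟩ := adapt (f := 0) (g1 := g1) (g3 := g3)
      (g2 := g2) 0 0 t0 t1 t2 t3 hΔ g2 (-2 * g1) 0
      (fun h => hg2 h.1) (by ring) (by
        refine mul_left_cancel₀ hb ?_
        linear_combination -4 * g1 * e4 + 2 * e1)
    simp only [zero_mul] at hE
    have hg' := hg.linEquiv hE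
    refine Cl.of_linEquiv hE ?_
    rcases hm with ⟨hb', hc', rfl⟩ | ⟨rfl, rfl, rfl⟩
    · obtain ⟨-, -, -, -, f1, f2, f3⟩ := diag_eqs hg'
      have h3 : g3' = 0 := sz (mz hb' (by linear_combination f3 / 2))
      subst h3
      refine z0 ?_ hg'
      intro h
      exact mul_ne_zero hb' hc' (by linear_combination -h / 4)
    · exact n0 hg'

/-- diagonal quadratic part -/
theorem diag_cl {a b c k0 ky kz g1 g3 g2 t0 t1 t2 t3 : ℝ} (hb : b ≠ 0) (hc : c ≠ 0)
    (hg : Good (S a b c 0 0 0 k0 ky kz g1 g3 g2 t0 t1 t2 t3)) :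
    Cl (S a b c 0 0 0 k0 ky kz g1 g3 g2 t0 t1 t2 t3) := by
  obtain ⟨rfl, rfl, e1, e2, -, -, -⟩ := diag_eqs hg
  rcases mul_eq_zero.mp e2 with h | h
  · subst h
    have h1 : a * (4 * a - 1) = 0 := by linear_combination -e1
    rcases mul_eq_zero.mp h1 with h1 | h1
    · subst h1
      exact a0 hb hc hg
    · have h2 : a = 1 / 4 := by linear_combination h1 / 4
      subst h2
      exact a14 hb hc hg
  · have h2 : a = 1 / 3 := by linear_combination h / 3
    subst h2
    have h3 : k0 = 1 / 27 := by linear_combination e1 / 3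
    subst h3
    exact a13 hb hc hg

/-- nondegenerate quadratic part -/
theorem nondeg_cl {a b c d e k0 ky kz g1 g3 g2 t0 t1 t2 t3 : ℝ} (hb : b ≠ 0) (hc : c ≠ 0)
    (hg : Good (S a b c d e 0 k0 ky kz g1 g3 g2 t0 t1 t2 t3)) :
    Cl (S a b c d e 0 k0 ky kz g1 g3 g2 t0 t1 t2 t3) := by
  obtain ⟨τ, hl, hτ, he⟩ := hg.chg !![1, 0, 0; -d / (2 * b), 1, 0; -e / (2 * c), 0, 1] (by
    rw [Matrix.det_fin_three]
    simp)
  have hA : ∀ v, (!![1, 0, 0; -d / (2 * b), 1, 0; -e / (2 * c), 0, 1] :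
      Matrix (Fin 3) (Fin 3) ℝ) *ᵥ v =
      ![v 0, -d / (2 * b) * v 0 + v 1, -e / (2 * c) * v 0 + v 2] := by
    intro v
    funext j
    fin_cases j <;> simp [Matrix.mulVec, dotProduct, Fin.sum_univ_three]
  obtain ⟨k0', ky', kz', g1', g3', g2', t0', t1', t2', t3', h2⟩ := hom3 (hτ.1 2)
  have h3 : τ = S (a - d ^ 2 / (4 * b) - e ^ 2 / (4 * c)) b c 0 0 0
      k0' ky' kz' g1' g3' g2' t0' t1' t2' t3' := by
    funext i
    fin_cases i
    · apply MvPolynomial.funext
      intro v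
      show eval v (τ 0) = _
      rw [he, hA]
      simp
    · apply MvPolynomial.funext
      intro v
      show eval v (τ 1) = _
      rw [he, hA]
      simp [ev_qd]
      field_simp
      ring
    · exact h2
  rw [h3] at hl hτ
  exact Cl.of_linEquiv hl (diag_cl hb hc hτ)

/-- first member `x` -/
theorem x_cl {a b c d e f k0 ky kz g1 g3 g2 t0 t1 t2 t3 : ℝ}
    (hg : Good (S a b c d e f k0 ky kz g1 g3 g2 t0 t1 t2 t3)) :
    Cl (S a b c d e f k0 ky kz g1 g3 g2 t0 t1 t2 t3) := by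
  by_cases hΔ : f ^ 2 - 4 * b * c = 0
  · exfalso
    by_cases hb : b = 0
    · subst hb
      have hf : f = 0 := sz (by linear_combination hΔ)
      subst hf
      have hE := blockE a 0 c d e 0 k0 ky kz g1 g3 g2 t0 t1 t2 t3 0 1 1 0 (by norm_num)
      have hg' := hg.linEquiv hE
      have h1 : (0 : ℝ) * 1 ^ 2 + c * 0 ^ 2 + 0 * (1 * 0) = 0 := by ring
      have h2 : (1 : ℝ) * (2 * 0 * 0 + 0 * 1) + 0 * (0 * 0 + 2 * c * 1) = 0 := by ring
      rw [h1, h2] at hg'
      exact s2 hg'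
    · have hE := blockE a b c d e f k0 ky kz g1 g3 g2 t0 t1 t2 t3 1 0 f (-2 * b) (by
        simpa using hb)
      have hg' := hg.linEquiv hE
      have h1 : b * f ^ 2 + c * (-2 * b) ^ 2 + f * (f * (-2 * b)) = 0 := by
        linear_combination -b * hΔ
      have h2 : f * (2 * b * 1 + f * 0) + (-2 * b) * (f * 1 + 2 * c * 0) = 0 := by ring
      rw [h1, h2] at hg'
      exact s2 hg'
  · -- a vector where the quadratic part does not vanish
    obtain ⟨p1, p2, hq⟩ : ∃ p1 p2 : ℝ, b * p1 ^ 2 + c * p2 ^ 2 + f * (p1 * p2) ≠ 0 := by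
      by_contra hcon
      push Not at hcon
      have h1 := hcon 1 0
      have h2 := hcon 0 1
      have h3 := hcon 1 1
      apply hΔ
      have hb : b = 0 := by linear_combination h1
      have hc : c = 0 := by linear_combination h2
      have hf : f = 0 := by linear_combination h3 - h1 - h2
      rw [hb, hc, hf]
      ring
    have hE := blockE a b c d e f k0 ky kz g1 g3 g2 t0 t1 t2 t3 p1 p2
      (-(f * p1 + 2 * c * p2)) (2 * b * p1 + f * p2) (by
        intro h0
        apply hq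
        linear_combination h0 / 2)
    have hg' := hg.linEquiv hE
    refine Cl.of_linEquiv hE ?_
    have h2 : -(f * p1 + 2 * c * p2) * (2 * b * p1 + f * p2) +
        (2 * b * p1 + f * p2) * (f * p1 + 2 * c * p2) = 0 := by ring
    rw [h2] at hg' ⊢
    refine nondeg_cl hq ?_ hg'
    intro h0
    have : (f ^ 2 - 4 * b * c) * (b * p1 ^ 2 + c * p2 ^ 2 + f * (p1 * p2)) = 0 := by
      linear_combination -h0
    exact hq (mz hΔ this)

/-- every good collection is equivalent to one of the normal forms -/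
theorem good_cl {σ : Fin 3 → P3} (hg : Good σ) : Cl σ := by
  obtain ⟨a, b, c, h0⟩ := hom1 (hg.1 0)
  -- a matrix which makes the first member equal to `x`
  obtain ⟨A, hA, hA0⟩ : ∃ A : Matrix (Fin 3) (Fin 3) ℝ, A.det ≠ 0 ∧
      ∀ v, eval (A *ᵥ v) (σ 0) = v 0 := by
    rw [h0]
    by_cases ha : a = 0
    · by_cases hb : b = 0
      · by_cases hc : c = 0
        · exfalso
          apply hg.2.1
          have hrow : ∀ j, jac σ 0 j = 0 := by
            intro j
            show pderiv j (σ 0) = 0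
            rw [h0, ha, hb, hc]
            simp [ln]
          exact Matrix.det_eq_zero_of_row_eq_zero 0 hrow
        · refine ⟨!![0, 1, 0; 0, 0, 1; 1 / c, -a / c, -b / c], ?_, fun v => ?_⟩
          · rw [Matrix.det_fin_three]
            simp [hc]
          · have hA : (!![0, 1, 0; 0, 0, 1; 1 / c, -a / c, -b / c] :
                Matrix (Fin 3) (Fin 3) ℝ) *ᵥ v =
                ![v 1, v 2, 1 / c * v 0 + -a / c * v 1 + -b / c * v 2] := by
              funext j
              fin_cases j <;> simp [Matrix.mulVec, dotProduct, Fin.sum_univ_three]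
            rw [hA, ev_ln]
            simp
            field_simp
            ring
      · refine ⟨!![0, 1, 0; 1 / b, -a / b, -c / b; 0, 0, 1], ?_, fun v => ?_⟩
        · rw [Matrix.det_fin_three]
          simp [hb]
        · have hA : (!![0, 1, 0; 1 / b, -a / b, -c / b; 0, 0, 1] :
              Matrix (Fin 3) (Fin 3) ℝ) *ᵥ v =
              ![v 1, 1 / b * v 0 + -a / b * v 1 + -c / b * v 2, v 2] := by
            funext j
            fin_cases j <;> simp [Matrix.mulVec, dotProduct, Fin.sum_univ_three]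
          rw [hA, ev_ln]
          simp
          field_simp
          ring
    · refine ⟨!![1 / a, -b / a, -c / a; 0, 1, 0; 0, 0, 1], ?_, fun v => ?_⟩
      · rw [Matrix.det_fin_three]
        simp [ha]
      · have hA : (!![1 / a, -b / a, -c / a; 0, 1, 0; 0, 0, 1] :
            Matrix (Fin 3) (Fin 3) ℝ) *ᵥ v =
            ![1 / a * v 0 + -b / a * v 1 + -c / a * v 2, v 1, v 2] := by
          funext j
          fin_cases j <;> simp [Matrix.mulVec, dotProduct, Fin.sum_univ_three]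
        rw [hA, ev_ln]
        simp
        field_simp
        ring
  obtain ⟨τ, hl, hτ, he⟩ := hg.chg A hA
  obtain ⟨a', b', c', d', e', f', h1⟩ := hom2 (hτ.1 1)
  obtain ⟨k0', ky', kz', g1', g3', g2', t0', t1', t2', t3', h2⟩ := hom3 (hτ.1 2)
  have h3 : τ = S a' b' c' d' e' f' k0' ky' kz' g1' g3' g2' t0' t1' t2' t3' := by
    funext i
    fin_cases i
    · apply MvPolynomial.funext
      intro v
      show eval v (τ 0) = _
      rw [he, hA0]
      simp
    · exact h1
    · exact h2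
  rw [h3] at hl hτ
  exact Cl.of_linEquiv hl (x_cl hτ)

end Pool.Agent.Helper36.Nij3
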