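import Mathlib
import Pool.Agent.Helper36.Nij3.Flow
import Pool.Agent.Helper36.Nij3.AdmGood

/-!
# The normal forms are admissible and pairwise inequivalent
-/

open MvPolynomial Matrix

set_option linter.unusedSimpArgs false

namespace Pool.Agent.Helper36.Nij3

open Pool.Agent.Helper28.Nij

theorem good_nfF {r : P3} (hr : r.IsHomogeneous 2) (A B : P3) (hA : A.IsHomogeneous 1)
    (hB : B.IsHomogeneous 1) (h1 : pderiv 0 r * (pderiv 1 r - X 0) + pderiv 2 r * A = 0)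
    (h2 : pderiv 1 r * pderiv 1 r - X 1 * pderiv 1 r + r + pderiv 2 r * B = 0)
    (v : Fin 3 → ℝ) (hv : eval v (pderiv 2 r) * (v 0 ^ 2 - v 0 * v 1 + eval v r) ≠ 0) :
    Good (nfF r) := by
  have hx : ∀ i : Fin 3, (X i : P3).IsHomogeneous 1 := fun i => isHomogeneous_X ℝ i
  have hd : ∀ i : Fin 3, (pderiv i r).IsHomogeneous 1 := fun i => hr.pderiv
  refine ⟨?_, ?_, Matrix.of ![![-X 0, 0, 0],
    ![pderiv 0 r, pderiv 1 r - X 1, pderiv 2 r], ![A, B, -pderiv 1 r]], ?_, ?_⟩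
  · intro i
    fin_cases i
    · exact (hx 0).add (hx 1)
    · exact ((hx 0).mul (hx 1)).add hr
    · exact (hx 0).mul hr
  · intro h0
    apply hv
    have h3 : (jac (nfF r)).det = pderiv 2 r * (X 0 ^ 2 - X 0 * X 1 + r) := by
      rw [Matrix.det_fin_three]
      simp [jac, nfF, pderiv_X, Pi.single_apply]
      ring
    rw [h3] at h0
    have h4 := congrArg (eval v) h0
    simpa using h4
  · intro i j
    fin_cases i <;> fin_cases j
    · exact (hx 0).neg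
    · exact isHomogeneous_zero _ _ _
    · exact isHomogeneous_zero _ _ _
    · exact hd 0
    · exact (hd 1).sub (hx 1)
    · exact hd 2
    · exact hA
    · exact hB
    · exact (hd 1).neg
  · ext1 i j
    rw [Matrix.mul_apply, Matrix.mul_apply, Fin.sum_univ_three, Fin.sum_univ_three]
    fin_cases i <;> fin_cases j
    · simp [jac, nfF, Helper28.Nij.comp, pderiv_X, Pi.single_apply]
      ring
    · simp [jac, nfF, Helper28.Nij.comp, pderiv_X, Pi.single_apply]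
      ring
    · simp [jac, nfF, Helper28.Nij.comp, pderiv_X, Pi.single_apply]
    · simp [jac, nfF, Helper28.Nij.comp, pderiv_X, Pi.single_apply]
      linear_combination h1
    · simp [jac, nfF, Helper28.Nij.comp, pderiv_X, Pi.single_apply]
      linear_combination h2
    · simp [jac, nfF, Helper28.Nij.comp, pderiv_X, Pi.single_apply]
      ring
    · simp [jac, nfF, Helper28.Nij.comp, pderiv_X, Pi.single_apply]
      linear_combination X 0 * h1
    · simp [jac, nfF, Helper28.Nij.comp, pderiv_X, Pi.single_apply]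
      linear_combination X 0 * h2
    · simp [jac, nfF, Helper28.Nij.comp, pderiv_X, Pi.single_apply]
      ring

theorem hx2 (i : Fin 3) : ((X i : P3) ^ 2).IsHomogeneous 2 := by
  have := (isHomogeneous_X ℝ i).pow 2
  rwa [one_mul] at this

theorem hom_qd (a b c d e f : ℝ) : (qd a b c d e f).IsHomogeneous 2 := by
  have h1 : ∀ (k : ℝ) (i : Fin 3), (C k * X i ^ 2 : P3).IsHomogeneous 2 := by
    intro k i
    have := (isHomogeneous_C (Fin 3) k).mul (hx2 i)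
    rwa [zero_add] at this
  have h2 : ∀ (k : ℝ) (i j : Fin 3), (C k * (X i * X j) : P3).IsHomogeneous 2 := by
    intro k i j
    have := (isHomogeneous_C (Fin 3) k).mul ((isHomogeneous_X ℝ i).mul (isHomogeneous_X ℝ j))
    rwa [zero_add] at this
  exact (((((h1 a 0).add (h1 b 1)).add (h1 c 2)).add (h2 d 0 1)).add (h2 e 0 2)).add (h2 f 1 2)

theorem hom_cX (k : ℝ) (i : Fin 3) : (C k * X i : P3).IsHomogeneous 1 := by
  have := (isHomogeneous_C (Fin 3) k).mul (isHomogeneous_X ℝ i)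
  rwa [zero_add] at this

/-- `r = k y² + s z²` with `k = 0` or `k = 1/4`, `s = 1` or `s = -1` -/
theorem good_a {k s : ℝ} (hk : 4 * k ^ 2 = k) (hs : s = 1 ∨ s = -1) :
    Good (nfF (qd 0 k s 0 0 0)) := by
  refine good_nfF (hom_qd _ _ _ _ _ _) 0 (C (-1 / 2) * X 2) (isHomogeneous_zero _ _ _)
    (hom_cX _ _) ?_ ?_ ![2, 0, 1] ?_
  · apply MvPolynomial.funext
    intro v
    simp only [map_add, map_mul, map_sub, (pd_qd 0 k s 0 0 0 v).1, (pd_qd 0 k s 0 0 0 v).2.1,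
      (pd_qd 0 k s 0 0 0 v).2.2, eval_X, map_zero]
    ring
  · apply MvPolynomial.funext
    intro v
    simp only [map_add, map_mul, map_sub, (pd_qd 0 k s 0 0 0 v).1, (pd_qd 0 k s 0 0 0 v).2.1,
      (pd_qd 0 k s 0 0 0 v).2.2, eval_X, map_zero, ev_qd, eval_C]
    linear_combination v 1 ^ 2 * hk
  · rw [(pd_qd 0 k s 0 0 0 _).2.2, ev_qd]
    have h2 : (![2, 0, 1] : Fin 3 → ℝ) 2 = 1 := rfl
    rw [h2]
    rcases hs with rfl | rfl <;> norm_num

/-- `r = x (y - x) + s z²` with `s = 1` or `s = -1` -/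
theorem good_b {s : ℝ} (hs : s = 1 ∨ s = -1) : Good (nfF (qd (-1) 0 s 1 0 0)) := by
  refine good_nfF (hom_qd _ _ _ _ _ _) 0 (C (-1 / 2) * X 2) (isHomogeneous_zero _ _ _)
    (hom_cX _ _) ?_ ?_ ![1, 0, 1] ?_
  · apply MvPolynomial.funext
    intro v
    simp only [map_add, map_mul, map_sub, (pd_qd (-1) 0 s 1 0 0 v).1,
      (pd_qd (-1) 0 s 1 0 0 v).2.1, (pd_qd (-1) 0 s 1 0 0 v).2.2, eval_X, map_zero]
    ring
  · apply MvPolynomial.funext
    intro v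
    simp only [map_add, map_mul, map_sub, (pd_qd (-1) 0 s 1 0 0 v).1,
      (pd_qd (-1) 0 s 1 0 0 v).2.1, (pd_qd (-1) 0 s 1 0 0 v).2.2, eval_X, map_zero, ev_qd, eval_C]
    ring
  · rw [(pd_qd (-1) 0 s 1 0 0 _).2.2, ev_qd]
    have h2 : (![1, 0, 1] : Fin 3 → ℝ) 2 = 1 := rfl
    rw [h2]
    rcases hs with rfl | rfl <;> norm_num

/-- `r = x z` -/
theorem good_c : Good (nfF (qd 0 0 0 0 1 0)) := by
  refine good_nfF (hom_qd _ _ _ _ _ _) (C 1 * X 2) (C (-1) * X 2) (hom_cX _ _)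
    (hom_cX _ _) ?_ ?_ ![1, 0, 1] ?_
  · apply MvPolynomial.funext
    intro v
    simp only [map_add, map_mul, map_sub, (pd_qd 0 0 0 0 1 0 v).1,
      (pd_qd 0 0 0 0 1 0 v).2.1, (pd_qd 0 0 0 0 1 0 v).2.2, eval_X, map_zero, eval_C]
    ring
  · apply MvPolynomial.funext
    intro v
    simp only [map_add, map_mul, map_sub, (pd_qd 0 0 0 0 1 0 v).1,
      (pd_qd 0 0 0 0 1 0 v).2.1, (pd_qd 0 0 0 0 1 0 v).2.2, eval_X, map_zero, ev_qd, eval_C]
    ring
  · rw [(pd_qd 0 0 0 0 1 0 _).2.2, ev_qd]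
    have h2 : (![1, 0, 1] : Fin 3 → ℝ) 2 = 1 := rfl
    rw [h2]
    norm_num

theorem good_t : Good nfT := by
  have hx : ∀ i : Fin 3, (X i : P3).IsHomogeneous 1 := fun i => isHomogeneous_X ℝ i
  refine ⟨?_, ?_, Matrix.of ![![-X 0, X 2, X 1], ![C (-1 / 3) * X 1, 0, 0],
    ![C (-2 / 3) * X 2, C 3 * X 1, 0]], ?_, ?_⟩
  · intro i
    fin_cases i
    · exact hx 0
    · exact (hx 1).mul (hx 2)
    · exact (hx 1).pow 3
  · intro h0
    have h3 : (jac nfT).det = -3 * X 1 ^ 3 := by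
      rw [Matrix.det_fin_three]
      simp [jac, nfT, pderiv_X, Pi.single_apply]
      ring
    rw [h3] at h0
    have h4 := congrArg (eval ![0, 1, 0]) h0
    simp at h4
  · intro i j
    fin_cases i <;> fin_cases j
    · exact (hx 0).neg
    · exact hx 2
    · exact hx 1
    · exact hom_cX _ _
    · exact isHomogeneous_zero _ _ _
    · exact isHomogeneous_zero _ _ _
    · exact hom_cX _ _
    · exact hom_cX _ _
    · exact isHomogeneous_zero _ _ _
  · ext1 i j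
    rw [Matrix.mul_apply, Matrix.mul_apply, Fin.sum_univ_three, Fin.sum_univ_three]
    apply MvPolynomial.funext
    intro v
    fin_cases i <;> fin_cases j
    · simp [jac, nfT, Helper28.Nij.comp, pderiv_X, Pi.single_apply]
    · simp [jac, nfT, Helper28.Nij.comp, pderiv_X, Pi.single_apply]
    · simp [jac, nfT, Helper28.Nij.comp, pderiv_X, Pi.single_apply]
    · simp [jac, nfT, Helper28.Nij.comp, pderiv_X, Pi.single_apply]
      ring
    · simp [jac, nfT, Helper28.Nij.comp, pderiv_X, Pi.single_apply]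
      ring
    · simp [jac, nfT, Helper28.Nij.comp, pderiv_X, Pi.single_apply]
    · simp [jac, nfT, Helper28.Nij.comp, pderiv_X, Pi.single_apply]
      ring
    · simp [jac, nfT, Helper28.Nij.comp, pderiv_X, Pi.single_apply]
    · simp [jac, nfT, Helper28.Nij.comp, pderiv_X, Pi.single_apply]

/-- the normal forms are good -/
theorem good_nf (i : Fin 8) : Good (nf i) := by
  have e0 : (C (1 / 4) * X 1 ^ 2 - X 2 ^ 2 : P3) = qd 0 (1 / 4) (-1) 0 0 0 := by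
    apply MvPolynomial.funext
    intro v
    simp [ev_qd]
    ring
  have e1 : (C (1 / 4) * X 1 ^ 2 + X 2 ^ 2 : P3) = qd 0 (1 / 4) 1 0 0 0 := by
    apply MvPolynomial.funext
    intro v
    simp [ev_qd]
  have e2 : (X 2 ^ 2 : P3) = qd 0 0 1 0 0 0 := by
    apply MvPolynomial.funext
    intro v
    simp [ev_qd]
  have e3 : (-X 2 ^ 2 : P3) = qd 0 0 (-1) 0 0 0 := by
    apply MvPolynomial.funext
    intro v
    simp [ev_qd]
  have e4 : (X 0 * (X 1 - X 0) + X 2 ^ 2 : P3) = qd (-1) 0 1 1 0 0 := by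
    apply MvPolynomial.funext
    intro v
    simp [ev_qd]
    ring
  have e5 : (X 0 * (X 1 - X 0) - X 2 ^ 2 : P3) = qd (-1) 0 (-1) 1 0 0 := by
    apply MvPolynomial.funext
    intro v
    simp [ev_qd]
    ring
  have e6 : (X 0 * X 2 : P3) = qd 0 0 0 0 1 0 := by
    apply MvPolynomial.funext
    intro v
    simp [ev_qd]
  fin_cases i
  · show Good (nfF (C (1 / 4) * X 1 ^ 2 - X 2 ^ 2))
    rw [e0]
    exact good_a (by norm_num) (Or.inr rfl)
  · show Good (nfF (C (1 / 4) * X 1 ^ 2 + X 2 ^ 2))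
    rw [e1]
    exact good_a (by norm_num) (Or.inl rfl)
  · show Good (nfF (X 2 ^ 2))
    rw [e2]
    exact good_a (by norm_num) (Or.inl rfl)
  · show Good (nfF (-X 2 ^ 2))
    rw [e3]
    exact good_a (by norm_num) (Or.inr rfl)
  · show Good (nfF (X 0 * (X 1 - X 0) + X 2 ^ 2))
    rw [e4]
    exact good_b (Or.inl rfl)
  · show Good (nfF (X 0 * (X 1 - X 0) - X 2 ^ 2))
    rw [e5]
    exact good_b (Or.inr rfl)
  · show Good (nfF (X 0 * X 2))
    rw [e6]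
    exact good_c
  · exact good_t

/-! ## Invariants -/

/-- there is a real point over `(c0, c1, c2)` -/
def Ex (c0 c1 c2 : ℝ) (σ : Fin 3 → P3) : Prop :=
  ∃ v : Fin 3 → ℝ, eval v (σ 0) = c0 ∧ eval v (σ 1) = c1 ∧ eval v (σ 2) = c2

/-- there are three different real points over `(0, -1, 0)` -/
def Ex3 (σ : Fin 3 → P3) : Prop :=
  ∃ v : Fin 3 → Fin 3 → ℝ, Function.Injective v ∧
    ∀ i, eval (v i) (σ 0) = 0 ∧ eval (v i) (σ 1) = -1 ∧ eval (v i) (σ 2) = 0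

theorem Ex.linEquiv {c0 c1 c2 : ℝ} {σ τ : Fin 3 → P3} (h : LinEquiv σ τ) (hτ : Ex c0 c1 c2 τ) :
    Ex c0 c1 c2 σ := by
  rw [linEquiv_def] at h
  obtain ⟨A, -, hA⟩ := h
  obtain ⟨v, h0, h1, h2⟩ := hτ
  rw [← hA, eval_sub] at h0 h1 h2
  exact ⟨_, h0, h1, h2⟩

theorem Ex3.linEquiv {σ τ : Fin 3 → P3} (h : LinEquiv σ τ) (hτ : Ex3 τ) : Ex3 σ := by
  rw [linEquiv_def] at h
  obtain ⟨A, hAu, hA⟩ := h
  obtain ⟨v, hv, h0⟩ := hτ
  refine ⟨fun i => A *ᵥ v i, fun i j hij => hv ?_, fun i => ?_⟩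
  · have h1 := congrArg (fun w => A⁻¹ *ᵥ w) hij
    simpa [Matrix.mulVec_mulVec, Matrix.nonsing_inv_mul A hAu] using h1
  · have h1 := h0 i
    rw [← hA, ← hA, ← hA, eval_sub, eval_sub, eval_sub] at h1
    exact h1

theorem ex_nfF {c0 c1 c2 : ℝ} {r : P3} : Ex c0 c1 c2 (nfF r) ↔ ∃ x y z : ℝ,
    x + y = c0 ∧ x * y + eval ![x, y, z] r = c1 ∧ x * eval ![x, y, z] r = c2 := by
  constructor
  · rintro ⟨v, h0, h1, h2⟩
    have hv : v = ![v 0, v 1, v 2] := by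
      funext j
      fin_cases j <;> rfl
    rw [(ev_nfF r v).1] at h0
    rw [(ev_nfF r v).2.1] at h1
    rw [(ev_nfF r v).2.2] at h2
    refine ⟨v 0, v 1, v 2, h0, ?_, ?_⟩
    · rw [← hv]
      exact h1
    · rw [← hv]
      exact h2
  · rintro ⟨x, y, z, h0, h1, h2⟩
    refine ⟨![x, y, z], ?_, ?_, ?_⟩
    · rw [(ev_nfF r _).1]
      exact h0
    · rw [(ev_nfF r _).2.1]
      exact h1
    · rw [(ev_nfF r _).2.2]
      exact h2

theorem ex_nfT {c0 c1 c2 : ℝ} : Ex c0 c1 c2 nfT ↔ ∃ x y z : ℝ,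
    x = c0 ∧ y * z = c1 ∧ y ^ 3 = c2 := by
  constructor
  · rintro ⟨v, h0, h1, h2⟩
    refine ⟨v 0, v 1, v 2, ?_, ?_, ?_⟩
    · simpa [nfT] using h0
    · simpa [nfT] using h1
    · simpa [nfT] using h2
  · rintro ⟨x, y, z, h0, h1, h2⟩
    refine ⟨![x, y, z], ?_, ?_, ?_⟩
    · simpa [nfT] using h0
    · simpa [nfT] using h1
    · simpa [nfT] using h2

theorem evr (x y z : ℝ) :
    eval ![x, y, z] (C (1 / 4) * X 1 ^ 2 - X 2 ^ 2 : P3) = y ^ 2 / 4 - z ^ 2 ∧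
    eval ![x, y, z] (C (1 / 4) * X 1 ^ 2 + X 2 ^ 2 : P3) = y ^ 2 / 4 + z ^ 2 ∧
    eval ![x, y, z] (X 2 ^ 2 : P3) = z ^ 2 ∧
    eval ![x, y, z] (-X 2 ^ 2 : P3) = -z ^ 2 ∧
    eval ![x, y, z] (X 0 * (X 1 - X 0) + X 2 ^ 2 : P3) = x * (y - x) + z ^ 2 ∧
    eval ![x, y, z] (X 0 * (X 1 - X 0) - X 2 ^ 2 : P3) = x * (y - x) - z ^ 2 ∧
    eval ![x, y, z] (X 0 * X 2 : P3) = x * z := by
  refine ⟨?_, ?_, ?_, ?_, ?_, ?_, ?_⟩ <;> simp <;> ring

/-- the functions `r` of the first seven normal forms -/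
noncomputable def rf (x y z : ℝ) : Fin 7 → ℝ :=
  ![y ^ 2 / 4 - z ^ 2, y ^ 2 / 4 + z ^ 2, z ^ 2, -z ^ 2, x * (y - x) + z ^ 2,
    x * (y - x) - z ^ 2, x * z]

theorem ex_nf {c0 c1 c2 : ℝ} (i : Fin 7) : Ex c0 c1 c2 (nf i.castSucc) ↔ ∃ x y z : ℝ,
    x + y = c0 ∧ x * y + rf x y z i = c1 ∧ x * rf x y z i = c2 := by
  have h := fun x y z : ℝ => evr x y z
  fin_cases i
  · show Ex c0 c1 c2 (nfF (C (1 / 4) * X 1 ^ 2 - X 2 ^ 2)) ↔ _
    rw [ex_nfF]
    simp only [(h _ _ _).1]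
    rfl
  · show Ex c0 c1 c2 (nfF (C (1 / 4) * X 1 ^ 2 + X 2 ^ 2)) ↔ _
    rw [ex_nfF]
    simp only [(h _ _ _).2.1]
    rfl
  · show Ex c0 c1 c2 (nfF (X 2 ^ 2)) ↔ _
    rw [ex_nfF]
    simp only [(h _ _ _).2.2.1]
    rfl
  · show Ex c0 c1 c2 (nfF (-X 2 ^ 2)) ↔ _
    rw [ex_nfF]
    simp only [(h _ _ _).2.2.2.1]
    rfl
  · show Ex c0 c1 c2 (nfF (X 0 * (X 1 - X 0) + X 2 ^ 2)) ↔ _
    rw [ex_nfF]
    simp only [(h _ _ _).2.2.2.2.1]
    rfl
  · show Ex c0 c1 c2 (nfF (X 0 * (X 1 - X 0) - X 2 ^ 2)) ↔ _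
    rw [ex_nfF]
    simp only [(h _ _ _).2.2.2.2.2.1]
    rfl
  · show Ex c0 c1 c2 (nfF (X 0 * X 2)) ↔ _
    rw [ex_nfF]
    simp only [(h _ _ _).2.2.2.2.2.2]
    rfl

end Pool.Agent.Helper36.Nij3
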