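import Mathlib
import Pool.Agent.Helper36.Nij3.Norm

/-!
# The normal forms are pairwise inequivalent
-/

open MvPolynomial Matrix

set_option linter.unusedSimpArgs false

namespace Pool.Agent.Helper36.Nij3

open Pool.Agent.Helper28.Nij

theorem rf0 (x y z : ℝ) : rf x y z 0 = y ^ 2 / 4 - z ^ 2 := rfl
theorem rf1 (x y z : ℝ) : rf x y z 1 = y ^ 2 / 4 + z ^ 2 := rfl
theorem rf2 (x y z : ℝ) : rf x y z 2 = z ^ 2 := rfl
theorem rf3 (x y z : ℝ) : rf x y z 3 = -z ^ 2 := rfl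
theorem rf4 (x y z : ℝ) : rf x y z 4 = x * (y - x) + z ^ 2 := rfl
theorem rf5 (x y z : ℝ) : rf x y z 5 = x * (y - x) - z ^ 2 := rfl
theorem rf6 (x y z : ℝ) : rf x y z 6 = x * z := rfl

theorem e1 (i : Fin 7) : Ex 0 (-1) 0 (nf i.castSucc) ↔ i ≠ 1 := by
  rw [ex_nf]
  fin_cases i
  · simp only [Fin.zero_eta, rf0]
    refine ⟨fun _ => by decide, fun _ => ⟨1, -1, 1 / 2, by norm_num, by norm_num, by norm_num⟩⟩
  · simp only [Fin.mk_one, rf1]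
    refine ⟨?_, fun h => absurd rfl h⟩
    rintro ⟨x, y, z, h0, h1, h2⟩
    exfalso
    have hy : y = -x := by linarith
    subst hy
    rcases mul_eq_zero.mp h2 with h | h
    · subst h
      nlinarith [sq_nonneg z]
    · rw [h] at h1
      have hx : x = 0 := by nlinarith [sq_nonneg z, sq_nonneg x]
      subst hx
      norm_num at h1
  · show (∃ x y z : ℝ, x + y = 0 ∧ x * y + rf x y z 2 = -1 ∧ x * rf x y z 2 = 0) ↔ (2 : Fin 7) ≠ 1
    simp only [rf2]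
    refine ⟨fun _ => by decide, fun _ => ⟨1, -1, 0, by norm_num, by norm_num, by norm_num⟩⟩
  · show (∃ x y z : ℝ, x + y = 0 ∧ x * y + rf x y z 3 = -1 ∧ x * rf x y z 3 = 0) ↔ (3 : Fin 7) ≠ 1
    simp only [rf3]
    refine ⟨fun _ => by decide, fun _ => ⟨1, -1, 0, by norm_num, by norm_num, by norm_num⟩⟩
  · show (∃ x y z : ℝ, x + y = 0 ∧ x * y + rf x y z 4 = -1 ∧ x * rf x y z 4 = 0) ↔ (4 : Fin 7) ≠ 1
    simp only [rf4]
    have hs : Real.sqrt 2 ^ 2 = 2 := Real.sq_sqrt (by norm_num)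
    refine ⟨fun _ => by decide, fun _ => ⟨1, -1, Real.sqrt 2, by norm_num, ?_, ?_⟩⟩
    · linarith
    · linarith
  · show (∃ x y z : ℝ, x + y = 0 ∧ x * y + rf x y z 5 = -1 ∧ x * rf x y z 5 = 0) ↔ (5 : Fin 7) ≠ 1
    simp only [rf5]
    refine ⟨fun _ => by decide, fun _ => ⟨0, 0, 1, by norm_num, by norm_num, by norm_num⟩⟩
  · show (∃ x y z : ℝ, x + y = 0 ∧ x * y + rf x y z 6 = -1 ∧ x * rf x y z 6 = 0) ↔ (6 : Fin 7) ≠ 1
    simp only [rf6]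
    refine ⟨fun _ => by decide, fun _ => ⟨1, -1, 0, by norm_num, by norm_num, by norm_num⟩⟩

theorem e2 (i : Fin 7) : Ex 0 1 0 (nf i.castSucc) ↔ i = 1 ∨ i = 2 ∨ i = 4 := by
  rw [ex_nf]
  -- the common reduction
  have key : ∀ x y r : ℝ, x + y = 0 → x * y + r = 1 → x * r = 0 → x = 0 ∧ y = 0 ∧ r = 1 := by
    intro x y r h0 h1 h2
    have hy : y = -x := by linarith
    subst hy
    rcases mul_eq_zero.mp h2 with h | h
    · subst h
      exact ⟨rfl, by norm_num, by linarith⟩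
    · subst h
      nlinarith [sq_nonneg x]
  fin_cases i
  · show (∃ x y z : ℝ, x + y = 0 ∧ x * y + rf x y z 0 = 1 ∧ x * rf x y z 0 = 0) ↔
      ((0 : Fin 7) = 1 ∨ (0 : Fin 7) = 2 ∨ (0 : Fin 7) = 4)
    refine ⟨?_, fun h => absurd h (by decide)⟩
    rintro ⟨x, y, z, h0, h1, h2⟩
    obtain ⟨rfl, rfl, h3⟩ := key _ _ _ h0 h1 h2
    rw [rf0] at h3
    nlinarith [sq_nonneg z]
  · refine ⟨fun _ => by decide, fun _ => ⟨0, 0, 1, by norm_num, ?_, by norm_num⟩⟩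
    show 0 * 0 + rf 0 0 1 1 = (1 : ℝ)
    rw [rf1]
    norm_num
  · refine ⟨fun _ => by decide, fun _ => ⟨0, 0, 1, by norm_num, ?_, by norm_num⟩⟩
    show 0 * 0 + rf 0 0 1 2 = (1 : ℝ)
    rw [rf2]
    norm_num
  · show (∃ x y z : ℝ, x + y = 0 ∧ x * y + rf x y z 3 = 1 ∧ x * rf x y z 3 = 0) ↔
      ((3 : Fin 7) = 1 ∨ (3 : Fin 7) = 2 ∨ (3 : Fin 7) = 4)
    refine ⟨?_, fun h => absurd h (by decide)⟩
    rintro ⟨x, y, z, h0, h1, h2⟩
    obtain ⟨rfl, rfl, h3⟩ := key _ _ _ h0 h1 h2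
    rw [rf3] at h3
    nlinarith [sq_nonneg z]
  · refine ⟨fun _ => by decide, fun _ => ⟨0, 0, 1, by norm_num, ?_, by norm_num⟩⟩
    show 0 * 0 + rf 0 0 1 4 = (1 : ℝ)
    rw [rf4]
    norm_num
  · show (∃ x y z : ℝ, x + y = 0 ∧ x * y + rf x y z 5 = 1 ∧ x * rf x y z 5 = 0) ↔
      ((5 : Fin 7) = 1 ∨ (5 : Fin 7) = 2 ∨ (5 : Fin 7) = 4)
    refine ⟨?_, fun h => absurd h (by decide)⟩
    rintro ⟨x, y, z, h0, h1, h2⟩
    obtain ⟨rfl, rfl, h3⟩ := key _ _ _ h0 h1 h2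
    rw [rf5] at h3
    nlinarith [sq_nonneg z]
  · show (∃ x y z : ℝ, x + y = 0 ∧ x * y + rf x y z 6 = 1 ∧ x * rf x y z 6 = 0) ↔
      ((6 : Fin 7) = 1 ∨ (6 : Fin 7) = 2 ∨ (6 : Fin 7) = 4)
    refine ⟨?_, fun h => absurd h (by decide)⟩
    rintro ⟨x, y, z, h0, h1, h2⟩
    obtain ⟨rfl, rfl, h3⟩ := key _ _ _ h0 h1 h2
    rw [rf6] at h3
    norm_num at h3

theorem e3 (i : Fin 7) : Ex 0 0 1 (nf i.castSucc) ↔ i ≠ 0 ∧ i ≠ 3 ∧ i ≠ 5 := by
  rw [ex_nf]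
  have key : ∀ x y r : ℝ, x + y = 0 → x * y + r = 0 → x * r = 1 → x = 1 ∧ y = -1 ∧ r = 1 := by
    intro x y r h0 h1 h2
    have hy : y = -x := by linarith
    subst hy
    have hr : r = x ^ 2 := by linarith
    subst hr
    have hx : x = 1 := by
      have : (x - 1) * (x ^ 2 + x + 1) = 0 := by linear_combination h2
      rcases mul_eq_zero.mp this with h | h
      · linarith
      · nlinarith [sq_nonneg (x + 1 / 2)]
    subst hx
    norm_num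
  fin_cases i
  · show (∃ x y z : ℝ, x + y = 0 ∧ x * y + rf x y z 0 = 0 ∧ x * rf x y z 0 = 1) ↔
      ((0 : Fin 7) ≠ 0 ∧ (0 : Fin 7) ≠ 3 ∧ (0 : Fin 7) ≠ 5)
    refine ⟨?_, fun h => absurd rfl h.1⟩
    rintro ⟨x, y, z, h0, h1, h2⟩
    obtain ⟨rfl, rfl, h3⟩ := key _ _ _ h0 h1 h2
    rw [rf0] at h3
    nlinarith [sq_nonneg z]
  · have hs : Real.sqrt 3 ^ 2 = 3 := Real.sq_sqrt (by norm_num)
    refine ⟨fun _ => by decide, fun _ => ⟨1, -1, Real.sqrt 3 / 2, by norm_num, ?_, ?_⟩⟩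
    · show 1 * -1 + rf 1 (-1) (Real.sqrt 3 / 2) 1 = (0 : ℝ)
      rw [rf1]
      linear_combination hs / 4
    · show 1 * rf 1 (-1) (Real.sqrt 3 / 2) 1 = (1 : ℝ)
      rw [rf1]
      linear_combination hs / 4
  · refine ⟨fun _ => by decide, fun _ => ⟨1, -1, 1, by norm_num, ?_, ?_⟩⟩
    · show 1 * -1 + rf 1 (-1) 1 2 = (0 : ℝ)
      rw [rf2]
      norm_num
    · show 1 * rf 1 (-1) 1 2 = (1 : ℝ)
      rw [rf2]
      norm_num
  · show (∃ x y z : ℝ, x + y = 0 ∧ x * y + rf x y z 3 = 0 ∧ x * rf x y z 3 = 1) ↔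
      ((3 : Fin 7) ≠ 0 ∧ (3 : Fin 7) ≠ 3 ∧ (3 : Fin 7) ≠ 5)
    refine ⟨?_, fun h => absurd rfl h.2.1⟩
    rintro ⟨x, y, z, h0, h1, h2⟩
    obtain ⟨rfl, rfl, h3⟩ := key _ _ _ h0 h1 h2
    rw [rf3] at h3
    nlinarith [sq_nonneg z]
  · have hs : Real.sqrt 3 ^ 2 = 3 := Real.sq_sqrt (by norm_num)
    refine ⟨fun _ => by decide, fun _ => ⟨1, -1, Real.sqrt 3, by norm_num, ?_, ?_⟩⟩
    · show 1 * -1 + rf 1 (-1) (Real.sqrt 3) 4 = (0 : ℝ)
      rw [rf4]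
      linear_combination hs
    · show 1 * rf 1 (-1) (Real.sqrt 3) 4 = (1 : ℝ)
      rw [rf4]
      linear_combination hs
  · show (∃ x y z : ℝ, x + y = 0 ∧ x * y + rf x y z 5 = 0 ∧ x * rf x y z 5 = 1) ↔
      ((5 : Fin 7) ≠ 0 ∧ (5 : Fin 7) ≠ 3 ∧ (5 : Fin 7) ≠ 5)
    refine ⟨?_, fun h => absurd rfl h.2.2⟩
    rintro ⟨x, y, z, h0, h1, h2⟩
    obtain ⟨rfl, rfl, h3⟩ := key _ _ _ h0 h1 h2
    rw [rf5] at h3
    nlinarith [sq_nonneg z]
  · refine ⟨fun _ => by decide, fun _ => ⟨1, -1, 1, by norm_num, ?_, ?_⟩⟩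
    · show 1 * -1 + rf 1 (-1) 1 6 = (0 : ℝ)
      rw [rf6]
      norm_num
    · show 1 * rf 1 (-1) 1 6 = (1 : ℝ)
      rw [rf6]
      norm_num

theorem e1' : ¬ Ex 0 (-1) 0 (nf 7) := by
  show ¬ Ex 0 (-1) 0 nfT
  rw [ex_nfT]
  rintro ⟨x, y, z, -, h1, h2⟩
  have hy : y = 0 := pow_eq_zero_iff (three_ne_zero) |>.mp h2
  subst hy
  norm_num at h1

theorem e2' : ¬ Ex 0 1 0 (nf 7) := by
  show ¬ Ex 0 1 0 nfT
  rw [ex_nfT]
  rintro ⟨x, y, z, -, h1, h2⟩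
  have hy : y = 0 := pow_eq_zero_iff (three_ne_zero) |>.mp h2
  subst hy
  norm_num at h1

theorem e3' : Ex 0 0 1 (nf 7) := by
  show Ex 0 0 1 nfT
  rw [ex_nfT]
  exact ⟨0, 1, 0, rfl, by norm_num, by norm_num⟩

theorem e4 : Ex 6 11 6 (nf 0) := by
  show Ex 6 11 6 (nf (Fin.castSucc (0 : Fin 7)))
  rw [ex_nf]
  refine ⟨1, 5, 1 / 2, by norm_num, ?_, ?_⟩
  · rw [rf0]
    norm_num
  · rw [rf0]
    norm_num

theorem e4' : ¬ Ex 6 11 6 (nf 3) := by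
  show ¬ Ex 6 11 6 (nf (Fin.castSucc (3 : Fin 7)))
  rw [ex_nf]
  rintro ⟨x, y, z, h0, h1, h2⟩
  rw [rf3] at h1 h2
  have hy : y = 6 - x := by linarith
  subst hy
  have hz : 0 ≤ z ^ 2 := sq_nonneg z
  have hx : x ≤ 0 := by
    by_contra h
    push Not at h
    nlinarith
  nlinarith

/-- the points over `(0, -1, 0)` in coordinates -/
theorem pts {r : P3} {v : Fin 3 → ℝ} (h0 : eval v (nfF r 0) = 0) (h1 : eval v (nfF r 1) = -1)
    (h2 : eval v (nfF r 2) = 0) : v 1 = -v 0 ∧ -v 0 ^ 2 + eval ![v 0, v 1, v 2] r = -1 ∧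
      v 0 * eval ![v 0, v 1, v 2] r = 0 := by
  have hv : v = ![v 0, v 1, v 2] := by
    funext j
    fin_cases j <;> rfl
  rw [(ev_nfF r v).1] at h0
  rw [(ev_nfF r v).2.1] at h1
  rw [(ev_nfF r v).2.2] at h2
  have h3 : v 1 = -v 0 := by linarith
  refine ⟨h3, ?_, ?_⟩
  · rw [← hv]
    rw [h3] at h1
    linarith
  · rw [← hv]
    exact h2

theorem ex3_of {r : P3} (v1 v2 v3 : Fin 3 → ℝ) (h12 : v1 ≠ v2) (h13 : v1 ≠ v3) (h23 : v2 ≠ v3)
    (h : ∀ v ∈ [v1, v2, v3], v 0 + v 1 = 0 ∧ v 0 * v 1 + eval ![v 0, v 1, v 2] r = -1 ∧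
      v 0 * eval ![v 0, v 1, v 2] r = 0) : Ex3 (nfF r) := by
  have h' : ∀ v ∈ [v1, v2, v3], eval v (nfF r 0) = 0 ∧ eval v (nfF r 1) = -1 ∧
      eval v (nfF r 2) = 0 := by
    intro v hv
    have hvv : v = ![v 0, v 1, v 2] := by
      funext j
      fin_cases j <;> rfl
    obtain ⟨a0, a1, a2⟩ := h v hv
    rw [← hvv] at a1 a2
    rw [(ev_nfF r v).1, (ev_nfF r v).2.1, (ev_nfF r v).2.2]
    exact ⟨a0, a1, a2⟩
  refine ⟨![v1, v2, v3], ?_, ?_⟩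
  · intro i j hij
    fin_cases i <;> fin_cases j
    · rfl
    · exact absurd hij h12
    · exact absurd hij h13
    · exact absurd hij.symm h12
    · rfl
    · exact absurd hij h23
    · exact absurd hij.symm h13
    · exact absurd hij.symm h23
    · rfl
  · intro i
    fin_cases i
    · exact h' v1 (by simp)
    · exact h' v2 (by simp)
    · exact h' v3 (by simp)

theorem ne_of_coord {v w : Fin 3 → ℝ} (i : Fin 3) (h : v i ≠ w i) : v ≠ w :=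
  fun he => h (by rw [he])

theorem x3_0 : Ex3 (nf 0) := by
  show Ex3 (nfF (C (1 / 4) * X 1 ^ 2 - X 2 ^ 2))
  refine ex3_of ![1, -1, 1 / 2] ![1, -1, -1 / 2] ![-1, 1, 1 / 2] (ne_of_coord 2 ?_)
    (ne_of_coord 0 ?_) (ne_of_coord 0 ?_) ?_
  · simp
    norm_num
  · simp
    norm_num
  · simp
    norm_num
  · intro v hv
    rw [(evr _ _ _).1]
    simp only [List.mem_cons, List.not_mem_nil, or_false] at hv
    rcases hv with rfl | rfl | rfl <;> simp <;> norm_num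

theorem x3_3 : Ex3 (nf 3) := by
  show Ex3 (nfF (-X 2 ^ 2))
  refine ex3_of ![1, -1, 0] ![-1, 1, 0] ![0, 0, 1] (ne_of_coord 0 ?_)
    (ne_of_coord 0 ?_) (ne_of_coord 0 ?_) ?_
  · simp
    norm_num
  · simp
  · simp
  · intro v hv
    rw [(evr _ _ _).2.2.2.1]
    simp only [List.mem_cons, List.not_mem_nil, or_false] at hv
    rcases hv with rfl | rfl | rfl <;> simp

theorem x3_4 : Ex3 (nf 4) := by
  show Ex3 (nfF (X 0 * (X 1 - X 0) + X 2 ^ 2))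
  have hs : Real.sqrt 2 ^ 2 = 2 := Real.sq_sqrt (by norm_num)
  have hp : 0 < Real.sqrt 2 := Real.sqrt_pos.mpr (by norm_num)
  refine ex3_of ![1, -1, Real.sqrt 2] ![1, -1, -Real.sqrt 2] ![-1, 1, Real.sqrt 2]
    (ne_of_coord 2 ?_) (ne_of_coord 0 ?_) (ne_of_coord 0 ?_) ?_
  · show Real.sqrt 2 ≠ -Real.sqrt 2
    intro h
    linarith
  · simp
    norm_num
  · simp
    norm_num
  · intro v hv
    rw [(evr _ _ _).2.2.2.2.1]
    simp only [List.mem_cons, List.not_mem_nil, or_false] at hv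
    rcases hv with rfl | rfl | rfl
    · refine ⟨by simp, ?_, ?_⟩
      · simp
        norm_num
      · simp
        norm_num
    · refine ⟨by simp, ?_, ?_⟩
      · simp
        norm_num
      · simp
        norm_num
    · refine ⟨by simp, ?_, ?_⟩
      · simp
        norm_num
      · simp
        norm_num

/-- three points cannot have only two values of a sign -/
theorem not_three {v : Fin 3 → Fin 3 → ℝ} (hinj : Function.Injective v) (w1 w2 : Fin 3 → ℝ)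
    (h : ∀ i, v i = w1 ∨ v i = w2) : False := by
  have h01 : v 0 ≠ v 1 := fun h => absurd (hinj h) (by decide)
  have h02 : v 0 ≠ v 2 := fun h => absurd (hinj h) (by decide)
  have h12 : v 1 ≠ v 2 := fun h => absurd (hinj h) (by decide)
  rcases h 0 with a | a <;> rcases h 1 with b | b <;> rcases h 2 with c | c
  · exact h01 (a.trans b.symm)
  · exact h01 (a.trans b.symm)
  · exact h02 (a.trans c.symm)
  · exact h12 (b.trans c.symm)
  · exact h12 (b.trans c.symm)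
  · exact h02 (a.trans c.symm)
  · exact h01 (a.trans b.symm)
  · exact h01 (a.trans b.symm)

theorem x3_2 : ¬ Ex3 (nf 2) := by
  show ¬ Ex3 (nfF (X 2 ^ 2))
  rintro ⟨v, hinj, hv⟩
  refine not_three hinj ![1, -1, 0] ![-1, 1, 0] fun i => ?_
  obtain ⟨h0, h1, h2⟩ := hv i
  obtain ⟨a0, a1, a2⟩ := pts h0 h1 h2
  rw [(evr _ _ _).2.2.1] at a1 a2
  have hx : v i 0 ≠ 0 := by
    intro hx
    rw [hx] at a1
    nlinarith [sq_nonneg (v i 2)]
  have hz : v i 2 = 0 := sz ((mul_eq_zero.mp a2).resolve_left hx)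
  rw [hz] at a1
  have hx2 : (v i 0 - 1) * (v i 0 + 1) = 0 := by linear_combination -a1
  rcases mul_eq_zero.mp hx2 with h | h
  · left
    have hx1 : v i 0 = 1 := by linarith
    funext j
    fin_cases j
    · exact hx1
    · show v i 1 = -1
      rw [a0, hx1]
    · exact hz
  · right
    have hx1 : v i 0 = -1 := by linarith
    funext j
    fin_cases j
    · exact hx1
    · show v i 1 = 1
      rw [a0, hx1]
      norm_num
    · exact hz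

theorem x3_5 : ¬ Ex3 (nf 5) := by
  show ¬ Ex3 (nfF (X 0 * (X 1 - X 0) - X 2 ^ 2))
  rintro ⟨v, hinj, hv⟩
  refine not_three hinj ![0, 0, 1] ![0, 0, -1] fun i => ?_
  obtain ⟨h0, h1, h2⟩ := hv i
  obtain ⟨a0, a1, a2⟩ := pts h0 h1 h2
  rw [(evr _ _ _).2.2.2.2.2.1, a0] at a1 a2
  have hx : v i 0 = 0 := by
    rcases mul_eq_zero.mp a2 with h | h
    · exact h
    · nlinarith [sq_nonneg (v i 0), sq_nonneg (v i 2)]
  have hy : v i 1 = 0 := by rw [a0, hx, neg_zero]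
  rw [hx] at a1
  have hz2 : (v i 2 - 1) * (v i 2 + 1) = 0 := by linear_combination -a1
  rcases mul_eq_zero.mp hz2 with h | h
  · left
    funext j
    fin_cases j
    · exact hx
    · exact hy
    · show v i 2 = 1
      linarith
  · right
    funext j
    fin_cases j
    · exact hx
    · exact hy
    · show v i 2 = -1
      linarith

theorem e1_all (i : Fin 8) : Ex 0 (-1) 0 (nf i) ↔ i ≠ 1 ∧ i ≠ 7 := by
  refine Fin.lastCases ?_ (fun i => ?_) i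
  · exact ⟨fun h => absurd h e1', fun h => absurd rfl h.2⟩
  · rw [e1]
    revert i
    decide

theorem e2_all (i : Fin 8) : Ex 0 1 0 (nf i) ↔ i = 1 ∨ i = 2 ∨ i = 4 := by
  refine Fin.lastCases ?_ (fun i => ?_) i
  · exact ⟨fun h => absurd h e2', fun h => absurd h (by decide)⟩
  · rw [e2]
    revert i
    decide

theorem e3_all (i : Fin 8) : Ex 0 0 1 (nf i) ↔ i ≠ 0 ∧ i ≠ 3 ∧ i ≠ 5 := by
  refine Fin.lastCases ?_ (fun i => ?_) i
  · exact ⟨fun _ => by decide, fun _ => e3'⟩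
  · rw [e3]
    revert i
    decide

/-- the normal forms are pairwise inequivalent -/
theorem nf_inj {i j : Fin 8} (h : LinEquiv (nf i) (nf j)) : i = j := by
  have h' := linEquiv_symm h
  have a1 : Ex 0 (-1) 0 (nf i) ↔ Ex 0 (-1) 0 (nf j) := ⟨Ex.linEquiv h', Ex.linEquiv h⟩
  have a2 : Ex 0 1 0 (nf i) ↔ Ex 0 1 0 (nf j) := ⟨Ex.linEquiv h', Ex.linEquiv h⟩
  have a3 : Ex 0 0 1 (nf i) ↔ Ex 0 0 1 (nf j) := ⟨Ex.linEquiv h', Ex.linEquiv h⟩
  rw [e1_all, e1_all] at a1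
  rw [e2_all, e2_all] at a2
  rw [e3_all, e3_all] at a3
  have key : ∀ i j : Fin 8, (i ≠ 1 ∧ i ≠ 7 ↔ j ≠ 1 ∧ j ≠ 7) →
      (i = 1 ∨ i = 2 ∨ i = 4 ↔ j = 1 ∨ j = 2 ∨ j = 4) →
      (i ≠ 0 ∧ i ≠ 3 ∧ i ≠ 5 ↔ j ≠ 0 ∧ j ≠ 3 ∧ j ≠ 5) →
      i = j ∨ (i = 0 ∧ j = 3) ∨ (i = 3 ∧ j = 0) ∨ (i = 0 ∧ j = 5) ∨ (i = 5 ∧ j = 0) ∨
        (i = 3 ∧ j = 5) ∨ (i = 5 ∧ j = 3) ∨ (i = 2 ∧ j = 4) ∨ (i = 4 ∧ j = 2) := by decide
  rcases key i j a1 a2 a3 with h1 | ⟨rfl, rfl⟩ | ⟨rfl, rfl⟩ | ⟨rfl, rfl⟩ | ⟨rfl, rfl⟩ |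
    ⟨rfl, rfl⟩ | ⟨rfl, rfl⟩ | ⟨rfl, rfl⟩ | ⟨rfl, rfl⟩
  · exact h1
  · exact absurd (Ex.linEquiv h' e4) e4'
  · exact absurd (Ex.linEquiv h e4) e4'
  · exact absurd (Ex3.linEquiv h' x3_0) x3_5
  · exact absurd (Ex3.linEquiv h x3_0) x3_5
  · exact absurd (Ex3.linEquiv h' x3_3) x3_5
  · exact absurd (Ex3.linEquiv h x3_3) x3_5
  · exact absurd (Ex3.linEquiv h x3_4) x3_2
  · exact absurd (Ex3.linEquiv h' x3_4) x3_2

/-- the classification -/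
theorem classification (σ : Fin 3 → P3) : Admissible σ ↔ ∃! i : Fin 8, LinEquiv (nf i) σ := by
  constructor
  · intro h
    obtain ⟨i, hi⟩ := good_cl (admissible_good h)
    exact ⟨i, hi, fun j hj => nf_inj (linEquiv_trans hj (linEquiv_symm hi))⟩
  · rintro ⟨i, hi, -⟩
    exact ((good_nf i).linEquiv hi).admissible

end Pool.Agent.Helper36.Nij3
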